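import Mathlib
import Pool.Agent.H527.S.S1

/-! The Maier matrix for the residue classes of one modulus: combinatorics. -/

set_option autoImplicit false

namespace Pool.Agent.H527.M

open Finset

/-- `π(x; q, a)` -/
def piA (x q a : ℕ) : ℕ := ((Icc 1 x).filter (fun p => p.Prime ∧ p ≡ a [MOD q])).card

/-- primes of one block in the right class modulo `W` -/
def blk (W q α β l : ℕ) : ℕ :=
  ((Ioc (l * q + α) (l * q + β)).filter (fun p => p.Prime ∧ p ≡ l * q [MOD W])).card

/-- the rows -/
def rows (W q α β : ℕ) : Finset ℕ := (Ioc α β).filter (fun a => W ∣ a ∧ a.Coprime q)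

/-- the residue in `(0, q]` -/
def aOf (q p : ℕ) : ℕ := (p - 1) % q + 1

/-- the index of the block -/
def lOf (q p : ℕ) : ℕ := (p - 1) / q

theorem lOf_aOf {q p : ℕ} (hp : 1 ≤ p) : p = lOf q p * q + aOf q p := by
  unfold lOf aOf
  have h := Nat.div_add_mod (p - 1) q
  rw [mul_comm] at h
  omega

theorem aOf_le {q p : ℕ} (hq : 0 < q) : aOf q p ≤ q := by
  unfold aOf
  have := Nat.mod_lt (p - 1) hq
  omega

theorem aOf_pos {q p : ℕ} : 0 < aOf q p := by unfold aOf; omega

theorem of_eq {q p l a : ℕ} (ha : 0 < a) (haq : a ≤ q) (h : p = l * q + a) : lOf q p = l ∧ aOf q p = a := by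
  have hq : 0 < q := by omega
  have h1 : p - 1 = (a - 1) + q * l := by rw [h, mul_comm]; omega
  unfold lOf aOf
  rw [h1, Nat.add_mul_div_left _ _ hq, Nat.add_mul_mod_self_left, Nat.div_eq_of_lt (by omega),
    Nat.mod_eq_of_lt (by omega)]
  omega

theorem modEq_iff {q p a : ℕ} (hp : 1 ≤ p) (ha : 0 < a) (haq : a ≤ q) : p ≡ a [MOD q] ↔ aOf q p = a := by
  constructor
  · intro h
    have h1 : aOf q p ≡ a [MOD q] := by
      have h2 : p ≡ aOf q p [MOD q] := by
        conv_lhs => rw [lOf_aOf (q := q) hp]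
        unfold Nat.ModEq
        rw [mul_comm, Nat.mul_add_mod]
      exact h2.symm.trans h
    have h3 := aOf_le (p := p) (show 0 < q by omega)
    have h4 := aOf_pos (q := q) (p := p)
    unfold Nat.ModEq at h1
    rcases Nat.lt_or_ge (aOf q p) q with c1 | c1
    · rcases Nat.lt_or_ge a q with c2 | c2
      · rwa [Nat.mod_eq_of_lt c1, Nat.mod_eq_of_lt c2] at h1
      · have : a = q := by omega
        rw [this, Nat.mod_self, Nat.mod_eq_of_lt c1] at h1
        omega
    · have e : aOf q p = q := by omega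
      rw [e] at h1 ⊢
      rcases Nat.lt_or_ge a q with c2 | c2
      · rw [Nat.mod_self, Nat.mod_eq_of_lt c2] at h1
        omega
      · omega
  · intro h
    conv_lhs => rw [lOf_aOf (q := q) hp, h]
    unfold Nat.ModEq
    rw [mul_comm, Nat.mul_add_mod]

/-- the primes in the matrix -/
def PS (x W q α β : ℕ) : Finset ℕ := (Icc 1 x).filter (fun p => p.Prime ∧ aOf q p ∈ rows W q α β)

theorem sum_rows (x W q α β : ℕ) (hβ : β ≤ q) :
    ∑ a ∈ rows W q α β, piA x q a = (PS x W q α β).card := by
  rw [card_eq_sum_card_fiberwise (f := aOf q) (t := rows W q α β)]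
  · apply sum_congr rfl
    intro a ha
    unfold piA PS
    congr 1
    have ha' := ha
    unfold rows at ha'
    rw [mem_filter, mem_Ioc] at ha'
    ext p
    simp only [mem_filter, mem_Icc]
    constructor
    · rintro ⟨h1, h2, h3⟩
      have h4 := (modEq_iff h1.1 (by omega) (by omega)).1 h3
      exact ⟨⟨h1, h2, by rw [h4]; exact ha⟩, h4⟩
    · rintro ⟨⟨h1, h2, h3⟩, h4⟩
      exact ⟨h1, h2, (modEq_iff h1.1 (by omega) (by omega)).2 h4⟩
  · intro p hp
    unfold PS at hp
    rw [mem_coe, mem_filter] at hp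
    exact hp.2.2

theorem mod_W {W l q a : ℕ} : l * q + a ≡ l * q [MOD W] ↔ W ∣ a := by
  rw [← Nat.modEq_zero_iff_dvd]
  constructor
  · intro h
    have : l * q + a ≡ l * q + 0 [MOD W] := by simpa using h
    exact Nat.ModEq.add_left_cancel' _ this
  · intro h
    have := Nat.ModEq.add_left (l * q) h
    simpa using this

/-- lower bound -/
theorem low (x W q α β : ℕ) (hq : 0 < q) (hβ : β ≤ q) :
    ∑ l ∈ (Ico 1 (x / q)).filter (fun l => l.Coprime W), blk W q α β l ≤
      ∑ a ∈ rows W q α β, piA x q a := by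
  rw [sum_rows x W q α β hβ]
  have h1 : ((Ico 1 (x / q)).filter (fun l => l.Coprime W)).biUnion
      (fun l => (Ioc (l * q + α) (l * q + β)).filter (fun p => p.Prime ∧ p ≡ l * q [MOD W])) ⊆ PS x W q α β := by
    intro p hp
    rw [mem_biUnion] at hp
    obtain ⟨l, hl, hp⟩ := hp
    rw [mem_filter, mem_Ico] at hl
    rw [mem_filter, mem_Ioc] at hp
    obtain ⟨⟨hp1, hp2⟩, hpp, hpW⟩ := hp
    obtain ⟨a, ha⟩ : ∃ a, a = p - l * q := ⟨_, rfl⟩
    have hpa : p = l * q + a := by omega
    obtain ⟨e1, e2⟩ := of_eq (q := q) (p := p) (l := l) (a := a) (by omega) (by omega) hpa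
    unfold PS rows
    rw [mem_filter, mem_Icc, mem_filter, mem_Ioc, e2]
    have hlq : (l + 1) * q ≤ x := (Nat.mul_le_mul_right q hl.1.2).trans (Nat.div_mul_le_self x q)
    have hlq1 : 1 * q ≤ l * q := Nat.mul_le_mul_right q hl.1.1
    rw [add_mul, one_mul] at hlq
    refine ⟨⟨by omega, by omega⟩, hpp, ⟨by omega, by omega⟩, ?_, ?_⟩
    · rw [hpa] at hpW
      exact mod_W.1 hpW
    · rw [Nat.coprime_iff_gcd_eq_one]
      by_contra hg
      have h2 : Nat.gcd a q ∣ p := by
        rw [hpa]
        exact dvd_add (Dvd.dvd.mul_left (Nat.gcd_dvd_right a q) l) (Nat.gcd_dvd_left a q)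
      rcases (Nat.dvd_prime hpp).1 h2 with h3 | h3
      · exact hg h3
      · have h4 : p ∣ q := by rw [← h3]; exact Nat.gcd_dvd_right a q
        have := Nat.le_of_dvd hq h4
        omega
  have h2 := card_le_card h1
  rw [card_biUnion] at h2
  · exact h2
  · intro l hl l' hl' hne
    rw [Function.onFun, disjoint_left]
    intro p hp hp'
    rw [mem_filter, mem_Ioc] at hp hp'
    obtain ⟨e1, _⟩ := of_eq (q := q) (p := p) (l := l) (a := p - l * q) (by omega) (by omega) (by omega)
    obtain ⟨e2, _⟩ := of_eq (q := q) (p := p) (l := l') (a := p - l' * q) (by omega) (by omega) (by omega)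
    exact hne (e1.symm.trans e2)

/-- upper bound -/
theorem upp (x W q α β : ℕ) (hq : 0 < q) (hβ : β ≤ q) (hW : 1 < W) (hWq : W < q) :
    ∑ a ∈ rows W q α β, piA x q a ≤
      1 + ∑ l ∈ (Icc 1 (x / q)).filter (fun l => l.Coprime W), blk W q α β l := by
  rw [sum_rows x W q α β hβ]
  have h1 : PS x W q α β ⊆ {W} ∪ ((Icc 1 (x / q)).filter (fun l => l.Coprime W)).biUnion
      (fun l => (Ioc (l * q + α) (l * q + β)).filter (fun p => p.Prime ∧ p ≡ l * q [MOD W])) := by
    intro p hp
    unfold PS rows at hp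
    rw [mem_filter, mem_Icc, mem_filter, mem_Ioc] at hp
    obtain ⟨⟨hp1, hpx⟩, hpp, ⟨ha1, ha2⟩, haW, haq⟩ := hp
    have hpe := lOf_aOf (q := q) hp1
    rw [mem_union, mem_singleton, mem_biUnion]
    rcases Nat.eq_zero_or_pos (lOf q p) with h0 | h0
    · left
      rw [h0, zero_mul, zero_add] at hpe
      rw [← hpe] at haW
      rcases (Nat.dvd_prime hpp).1 haW with h3 | h3
      · omega
      · exact h3.symm
    · right
      refine ⟨lOf q p, ?_, ?_⟩
      · rw [mem_filter, mem_Icc]
        refine ⟨⟨h0, ?_⟩, ?_⟩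
        · unfold lOf
          exact Nat.div_le_div_right (by omega)
        · rw [Nat.coprime_iff_gcd_eq_one]
          by_contra hg
          have h2 : Nat.gcd (lOf q p) W ∣ p := by
            rw [hpe]
            exact dvd_add (Dvd.dvd.mul_right (Nat.gcd_dvd_left _ W |>.trans (by rw [← hpe])) q)
              ((Nat.gcd_dvd_right _ W).trans haW)
          rcases (Nat.dvd_prime hpp).1 h2 with h3 | h3
          · exact hg h3
          · have h4 : p ∣ W := by
              have := Nat.gcd_dvd_right (lOf q p) W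
              rwa [h3] at this
            have h5 := Nat.le_of_dvd (by omega) h4
            have h6 : 1 * q ≤ lOf q p * q := Nat.mul_le_mul_right q h0
            omega
      · rw [mem_filter, mem_Ioc]
        refine ⟨⟨by omega, by omega⟩, hpp, ?_⟩
        conv_lhs => rw [hpe]
        exact mod_W.2 haW
  refine (card_le_card h1).trans ((card_union_le _ _).trans ?_)
  rw [card_singleton]
  exact Nat.add_le_add_left (card_biUnion_le) 1

end Pool.Agent.H527.M
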