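import Mathlib
import Pool.Agent.H527.AP.A3
import Pool.Agent.H527.M.M1

/-! The Maier matrix: the number of primes in one block, from the prime number theorem in progressions. -/

set_option autoImplicit false

namespace Pool.Agent.H527.M

open Finset Pool.Agent.H527.AP

/-- the prime number theorem modulo `W` on `[q, 2 x]` with the error `Er` -/
def Hpsi (W q x : ℕ) (Er : ℝ) : Prop :=
  ∀ V : ℕ, q ≤ V → V ≤ 2 * x → ∀ b : ℕ, b.Coprime W → |psiA V W b - V / (Nat.totient W : ℝ)| ≤ Er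

theorem psiA_diff {U V W b : ℕ} (hUV : U ≤ V) :
    psiA V W b - psiA U W b = ∑ n ∈ (Ioc U V).filter (fun n => n ≡ b [MOD W]), ArithmeticFunction.vonMangoldt n := by
  unfold psiA
  rw [Nat.floor_natCast, Nat.floor_natCast]
  have h1 : (Icc 1 V).filter (fun n => n ≡ b [MOD W]) =
      (Icc 1 U).filter (fun n => n ≡ b [MOD W]) ∪ (Ioc U V).filter (fun n => n ≡ b [MOD W]) := by
    ext n
    simp only [mem_filter, mem_Icc, mem_Ioc, mem_union]
    constructor
    · rintro ⟨⟨h1, h2⟩, h3⟩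
      rcases Nat.lt_or_ge U n with h | h
      · exact Or.inr ⟨⟨h, h2⟩, h3⟩
      · exact Or.inl ⟨⟨h1, h⟩, h3⟩
    · rintro (⟨⟨h1, h2⟩, h3⟩ | ⟨⟨h1, h2⟩, h3⟩)
      · exact ⟨⟨h1, by omega⟩, h3⟩
      · exact ⟨⟨by omega, h2⟩, h3⟩
  rw [h1, sum_union]
  · ring
  · rw [disjoint_left]
    intro n h2 h3
    rw [mem_filter, mem_Icc] at h2
    rw [mem_filter, mem_Ioc] at h3
    omega

/-- primes of an interval in a class, upper bound -/
theorem prime_le {U V W b : ℕ} (hU : 2 ≤ U) (hUV : U ≤ V) :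
    (((Ioc U V).filter (fun p => p.Prime ∧ p ≡ b [MOD W])).card : ℝ) * Real.log U ≤
      psiA V W b - psiA U W b := by
  rw [psiA_diff hUV, card_eq_sum_ones]
  push_cast
  rw [sum_mul]
  have h1 : (Ioc U V).filter (fun p => p.Prime ∧ p ≡ b [MOD W]) ⊆ (Ioc U V).filter (fun n => n ≡ b [MOD W]) := by
    intro p hp
    rw [mem_filter] at hp ⊢
    exact ⟨hp.1, hp.2.2⟩
  refine le_trans (sum_le_sum ?_) (sum_le_sum_of_subset_of_nonneg h1
    (fun n _ _ => ArithmeticFunction.vonMangoldt_nonneg))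
  intro p hp
  rw [mem_filter, mem_Ioc] at hp
  rw [ArithmeticFunction.vonMangoldt_apply_prime hp.2.1, one_mul]
  apply Real.log_le_log
  · exact_mod_cast (by omega : 0 < U)
  · exact_mod_cast hp.1.1.le

/-- primes of an interval in a class, lower bound -/
theorem prime_ge {U V W b : ℕ} (hUV : U ≤ V) (hV : 1 ≤ V) :
    psiA V W b - psiA U W b ≤
      (((Ioc U V).filter (fun p => p.Prime ∧ p ≡ b [MOD W])).card : ℝ) * Real.log V +
        2 * Real.sqrt V * Real.log V := by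
  rw [psiA_diff hUV]
  rw [← sum_filter_add_sum_filter_not ((Ioc U V).filter (fun n => n ≡ b [MOD W])) (fun n => n.Prime)]
  apply add_le_add
  · have h1 : ((Ioc U V).filter (fun n => n ≡ b [MOD W])).filter (fun n => n.Prime) =
        (Ioc U V).filter (fun p => p.Prime ∧ p ≡ b [MOD W]) := by
      ext n
      simp only [mem_filter]
      tauto
    rw [h1, card_eq_sum_ones]
    push_cast
    rw [sum_mul]
    apply sum_le_sum
    intro p hp
    rw [mem_filter, mem_Ioc] at hp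
    rw [ArithmeticFunction.vonMangoldt_apply_prime hp.2.1, one_mul]
    apply Real.log_le_log
    · exact_mod_cast hp.2.1.pos
    · exact_mod_cast hp.1.2
  · have h1 := Chebyshev.psi_sub_theta_eq_sum_not_prime (V : ℝ)
    have h2 := Chebyshev.psi_sub_theta_le (x := (V : ℝ)) (by exact_mod_cast hV)
    rw [h1, Nat.floor_natCast] at h2
    refine le_trans ?_ h2
    apply sum_le_sum_of_subset_of_nonneg
    · intro n hn
      rw [mem_filter, mem_filter, mem_Ioc] at hn
      rw [mem_filter, mem_Ioc]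
      exact ⟨⟨by omega, hn.1.1.2⟩, hn.2⟩
    · intro n _ _
      exact ArithmeticFunction.vonMangoldt_nonneg

/-- the error from the prime powers -/
noncomputable def R2 (x : ℕ) : ℝ := 2 * Real.sqrt ((2 * x : ℕ) : ℝ) * Real.log ((2 * x : ℕ) : ℝ)

theorem blk_le {W q x α β l : ℕ} {Er : ℝ} (h : Hpsi W q x Er) (hq : 2 ≤ q) (hαβ : α ≤ β) (hβ : β ≤ q)
    (hl : 1 ≤ l) (hlx : (l + 1) * q ≤ 2 * x) (hc : (l * q).Coprime W) :
    (blk W q α β l : ℝ) ≤ (((β : ℝ) - α) / (Nat.totient W : ℝ) + 2 * Er) / Real.log (l * q) := by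
  have hq1 : 1 * q ≤ l * q := Nat.mul_le_mul_right q hl
  have hlx' : l * q + q ≤ 2 * x := by rw [add_mul, one_mul] at hlx; exact hlx
  have h1 := prime_le (U := l * q + α) (V := l * q + β) (W := W) (b := l * q) (by omega) (by omega)
  have h2 := h (l * q + α) (by omega) (by omega) (l * q) hc
  have h3 := h (l * q + β) (by omega) (by omega) (l * q) hc
  rw [abs_le] at h2 h3
  have hlq : (2 : ℝ) ≤ (l : ℝ) * q := by exact_mod_cast (by omega : 2 ≤ l * q)
  have hlog : 0 < Real.log ((l : ℝ) * q) := Real.log_pos (by linarith)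
  rw [le_div_iff₀ hlog]
  have h4 : Real.log ((l : ℝ) * q) ≤ Real.log ((l * q + α : ℕ) : ℝ) := by
    apply Real.log_le_log (by linarith)
    push_cast
    linarith [(Nat.cast_nonneg α : (0 : ℝ) ≤ α)]
  have h5 : (blk W q α β l : ℝ) * Real.log ((l : ℝ) * q) ≤ (blk W q α β l : ℝ) * Real.log ((l * q + α : ℕ) : ℝ) :=
    mul_le_mul_of_nonneg_left h4 (Nat.cast_nonneg _)
  refine h5.trans ?_
  unfold blk
  refine h1.trans ?_
  have h6 : ((l * q + β : ℕ) : ℝ) / (Nat.totient W : ℝ) - ((l * q + α : ℕ) : ℝ) / (Nat.totient W : ℝ) =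
      ((β : ℝ) - α) / (Nat.totient W : ℝ) := by
    rw [← sub_div]; congr 1; push_cast; ring
  linarith [h2.1, h3.2]

theorem blk_ge {W q x α β l : ℕ} {Er : ℝ} (h : Hpsi W q x Er) (hq : 2 ≤ q) (hαβ : α ≤ β) (hβ : β ≤ q)
    (hl : 1 ≤ l) (hlx : (l + 1) * q ≤ 2 * x) (hc : (l * q).Coprime W) :
    (((β : ℝ) - α) / (Nat.totient W : ℝ) - 2 * Er - R2 x) / Real.log ((l + 1) * q) ≤ (blk W q α β l : ℝ) := by
  have hq1 : 1 * q ≤ l * q := Nat.mul_le_mul_right q hl
  have hlx' : l * q + q ≤ 2 * x := by rw [add_mul, one_mul] at hlx; exact hlx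
  have h1 := prime_ge (U := l * q + α) (V := l * q + β) (W := W) (b := l * q) (by omega) (by omega)
  have h2 := h (l * q + α) (by omega) (by omega) (l * q) hc
  have h3 := h (l * q + β) (by omega) (by omega) (l * q) hc
  rw [abs_le] at h2 h3
  have hlq : (2 : ℝ) ≤ (l : ℝ) * q := by exact_mod_cast (by omega : 2 ≤ l * q)
  have hq0 : (0 : ℝ) < q := by exact_mod_cast (by omega : 0 < q)
  have hlog : 0 < Real.log (((l : ℝ) + 1) * q) := Real.log_pos (by nlinarith)
  rw [div_le_iff₀ hlog]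
  have hV0 : (0 : ℝ) < ((l * q + β : ℕ) : ℝ) := by exact_mod_cast (by omega : 0 < l * q + β)
  have h4 : Real.log ((l * q + β : ℕ) : ℝ) ≤ Real.log (((l : ℝ) + 1) * q) := by
    apply Real.log_le_log hV0
    push_cast
    have : (β : ℝ) ≤ q := by exact_mod_cast hβ
    linarith
  have h5 : (blk W q α β l : ℝ) * Real.log ((l * q + β : ℕ) : ℝ) ≤ (blk W q α β l : ℝ) * Real.log (((l : ℝ) + 1) * q) :=
    mul_le_mul_of_nonneg_left h4 (Nat.cast_nonneg _)
  refine le_trans ?_ h5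
  have h6 : ((l * q + β : ℕ) : ℝ) / (Nat.totient W : ℝ) - ((l * q + α : ℕ) : ℝ) / (Nat.totient W : ℝ) =
      ((β : ℝ) - α) / (Nat.totient W : ℝ) := by
    rw [← sub_div]; congr 1; push_cast; ring
  have h7 : 2 * Real.sqrt ((l * q + β : ℕ) : ℝ) * Real.log ((l * q + β : ℕ) : ℝ) ≤ R2 x := by
    unfold R2
    have h8 : ((l * q + β : ℕ) : ℝ) ≤ ((2 * x : ℕ) : ℝ) := by exact_mod_cast (by omega : l * q + β ≤ 2 * x)
    have h9 : 0 ≤ Real.log ((l * q + β : ℕ) : ℝ) := Real.log_nonneg (by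
      have : (1 : ℝ) ≤ ((l * q + β : ℕ) : ℝ) := by exact_mod_cast (by omega : 1 ≤ l * q + β)
      exact this)
    have h10 := Real.log_le_log hV0 h8
    have h11 := Real.sqrt_le_sqrt h8
    gcongr
  unfold blk at *
  linarith [h2.2, h3.1]

end Pool.Agent.H527.M
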