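import Mathlib
import Pool.Agent.H527.S.S2
import Pool.Agent.H527.M.M2

/-! The Maier matrix: summation over the blocks. -/

set_option autoImplicit false

namespace Pool.Agent.H527.M

open Finset Pool.Agent.H527.AP Pool.Agent.H527.S
open Pool.Agent.X30.MF (E F)

/-- summation by parts -/
theorem abel (w c : ℕ → ℝ) (M : ℕ) (N : ℝ) (hM : 1 ≤ M) (hw0 : ∀ l, 1 ≤ l → l ≤ M → 0 ≤ w l)
    (hw : ∀ l, 1 ≤ l → l < M → w (l + 1) ≤ w l) (hc : ∀ n, n ≤ M → -N ≤ ∑ l ∈ Icc 1 n, c l) :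
    -N * w 1 ≤ ∑ l ∈ Icc 1 M, c l * w l := by
  have key : ∀ n, 1 ≤ n → n ≤ M →
      -N * w 1 + (∑ l ∈ Icc 1 n, c l + N) * w n ≤ ∑ l ∈ Icc 1 n, c l * w l := by
    intro n hn
    induction n, hn using Nat.le_induction with
    | base =>
      intro _
      simp only [Icc_self, sum_singleton]
      apply le_of_eq; ring
    | succ n hn ih =>
      intro hnM
      have h1 := ih (by omega)
      rw [sum_Icc_succ_top (by omega), sum_Icc_succ_top (by omega)]
      have h2 := hc n (by omega)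
      have h3 := hw n hn (by omega)
      have h4 : (∑ l ∈ Icc 1 n, c l + N) * w (n + 1) ≤ (∑ l ∈ Icc 1 n, c l + N) * w n :=
        mul_le_mul_of_nonneg_left h3 (by linarith)
      linarith [h1, h4, add_mul (∑ l ∈ Icc 1 n, c l + N) (c (n + 1)) (w (n + 1)),
        (by ring : (∑ l ∈ Icc 1 n, c l + c (n + 1) + N) * w (n + 1) =
          (∑ l ∈ Icc 1 n, c l + N) * w (n + 1) + c (n + 1) * w (n + 1))]
  have h1 := key M hM le_rfl
  have h2 := hc M le_rfl
  have h3 := mul_nonneg (show 0 ≤ ∑ l ∈ Icc 1 M, c l + N by linarith) (hw0 M hM le_rfl)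
  linarith

/-- the weights -/
noncomputable def w (q l : ℕ) : ℝ := 1 / Real.log ((l : ℝ) * q)

theorem w_nonneg (q l : ℕ) : 0 ≤ w q l := by
  unfold w
  apply div_nonneg zero_le_one
  have : ((l : ℝ) * q) = ((l * q : ℕ) : ℝ) := by push_cast; ring
  rw [this]
  exact Real.log_natCast_nonneg _

theorem w_anti {q l m : ℕ} (hq : 2 ≤ q) (hl : 1 ≤ l) (hlm : l ≤ m) : w q m ≤ w q l := by
  unfold w
  have hq2 : (2 : ℝ) ≤ q := by exact_mod_cast hq
  have hl1 : (1 : ℝ) ≤ l := by exact_mod_cast hl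
  have hlm' : (l : ℝ) ≤ m := by exact_mod_cast hlm
  have h1 : (2 : ℝ) ≤ l * q := by nlinarith
  apply one_div_le_one_div_of_le (Real.log_pos (by linarith))
  apply Real.log_le_log (by linarith)
  gcongr

/-- the sum of the weights over the blocks prime to `W` -/
noncomputable def Om (q M : ℕ) : ℝ := ∑ l ∈ Icc 1 M, w q l

noncomputable def OmW (W q M : ℕ) : ℝ := ∑ l ∈ (Icc 1 M).filter (fun l => l.Coprime W), w q l

theorem coprime_prod {P : Finset ℕ} (hP : ∀ p ∈ P, p.Prime) (h : ℕ) :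
    h.Coprime (∏ p ∈ P, p) ↔ ∀ p ∈ P, ¬ p ∣ h := by
  rw [Nat.coprime_prod_right_iff]
  constructor
  · intro h1 p hp hd
    have := h1 p hp
    rw [Nat.coprime_comm, Nat.Prime.coprime_iff_not_dvd (hP p hp)] at this
    exact this hd
  · intro h1 p hp
    rw [Nat.coprime_comm, Nat.Prime.coprime_iff_not_dvd (hP p hp)]
    exact h1 p hp

theorem OmW_dev (P : Finset ℕ) (hP : ∀ p ∈ P, p.Prime) (k q M : ℕ) (hq : 2 ≤ q) (hM : 1 ≤ M)
    (hk : ∀ s, s ⊆ P → s.card = k + 1 → M < ∏ p ∈ s, p) :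
    F (fun p => 1 / (p : ℝ)) P k * Om q M - (Sk P k).card * w q 1 ≤
      (-1) ^ k * (OmW (∏ p ∈ P, p) q M - (∏ p ∈ P, (1 - 1 / (p : ℝ))) * Om q M) := by
  set g := ∏ p ∈ P, (1 - 1 / (p : ℝ)) with hg
  set Fv := F (fun p => 1 / (p : ℝ)) P k with hF
  set c : ℕ → ℝ := fun l => (-1) ^ k * ((if l.Coprime (∏ p ∈ P, p) then (1 : ℝ) else 0) - g) - Fv with hc
  have h1 := abel (w q) c M (Sk P k).card hM (fun l _ _ => w_nonneg q l)
    (fun l hl _ => w_anti hq hl (Nat.le_succ l)) (by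
      intro n hn
      have h2 := dev_sign P hP M k hk n hn
      rw [← hg, ← hF] at h2
      have h3 : ∑ l ∈ Icc 1 n, c l = (-1) ^ k * ((((Icc 1 n).filter (fun h => ∀ p ∈ P, ¬ p ∣ h)).card : ℝ) - n * g) - n * Fv := by
        rw [hc, sum_sub_distrib, ← mul_sum, sum_sub_distrib, sum_const, sum_const, Nat.card_Icc,
          Nat.add_sub_cancel, nsmul_eq_mul, nsmul_eq_mul]
        congr 3
        rw [card_filter]
        push_cast
        apply sum_congr rfl
        intro l _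
        simp only [coprime_prod hP]
      rw [h3]
      linarith)
  have h2 : ∑ l ∈ Icc 1 M, c l * w q l =
      (-1) ^ k * (OmW (∏ p ∈ P, p) q M - g * Om q M) - Fv * Om q M := by
    unfold OmW Om
    rw [sum_filter, hc]
    rw [mul_sub, mul_sum, mul_sum, mul_sum, mul_sum, ← sum_sub_distrib, ← sum_sub_distrib]
    apply sum_congr rfl
    intro l _
    by_cases hl : l.Coprime (∏ p ∈ P, p)
    · simp only [if_pos hl]; ring
    · simp only [if_neg hl]; ring
  rw [h2] at h1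
  linarith

theorem sum_shift (W q M : ℕ) (hq : 2 ≤ q) :
    OmW W q M - w q 1 ≤ ∑ l ∈ (Icc 1 M).filter (fun l => l.Coprime W), w q (l + 1) := by
  have h1 : OmW W q M - ∑ l ∈ (Icc 1 M).filter (fun l => l.Coprime W), w q (l + 1) ≤
      ∑ l ∈ Icc 1 M, (w q l - w q (l + 1)) := by
    unfold OmW
    rw [← sum_sub_distrib]
    apply sum_le_sum_of_subset_of_nonneg (filter_subset _ _)
    intro l hl _
    rw [mem_Icc] at hl
    have := w_anti hq hl.1 (Nat.le_succ l)
    linarith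
  have h2 : ∑ l ∈ Icc 1 M, (w q l - w q (l + 1)) = w q 1 - w q (M + 1) := by
    clear h1
    induction M with
    | zero => simp
    | succ M ih =>
      rw [sum_Icc_succ_top (by omega), ih]
      ring
  have h3 := w_nonneg q (M + 1)
  linarith

/-- lower bound for the number of primes in the matrix -/
theorem matrix_low {W q x α β : ℕ} {Er : ℝ} (h : Hpsi W q x Er) (hq : 2 ≤ q) (hαβ : α ≤ β) (hβ : β ≤ q)
    (hqW : q.Coprime W) (hA : 0 ≤ ((β : ℝ) - α) / (Nat.totient W : ℝ) - 2 * Er - R2 x) :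
    (((β : ℝ) - α) / (Nat.totient W : ℝ) - 2 * Er - R2 x) * (OmW W q (x / q - 1) - w q 1) ≤
      ((∑ a ∈ rows W q α β, piA x q a : ℕ) : ℝ) := by
  have h1 := low x W q α β (by omega) hβ
  have h2 : ((∑ l ∈ (Ico 1 (x / q)).filter (fun l => l.Coprime W), blk W q α β l : ℕ) : ℝ) ≤
      ((∑ a ∈ rows W q α β, piA x q a : ℕ) : ℝ) := by exact_mod_cast h1
  refine le_trans ?_ h2
  push_cast
  have e : Ico 1 (x / q) = Icc 1 (x / q - 1) := by
    ext l; simp only [mem_Ico, mem_Icc]; omega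
  rw [e]
  refine (mul_le_mul_of_nonneg_left (sum_shift W q (x / q - 1) hq) hA).trans ?_
  rw [mul_sum]
  apply sum_le_sum
  intro l hl
  rw [mem_filter, mem_Icc] at hl
  have hlx : (l + 1) * q ≤ 2 * x := by
    have h3 : (l + 1) * q ≤ (x / q) * q := Nat.mul_le_mul_right q (by omega)
    have h4 := Nat.div_mul_le_self x q
    omega
  have h3 := blk_ge h hq hαβ hβ hl.1.1 hlx (Nat.Coprime.mul_left hl.2 hqW)
  refine le_trans (le_of_eq ?_) h3
  unfold w
  push_cast
  rw [mul_one_div]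

/-- upper bound for the number of primes in the matrix -/
theorem matrix_upp {W q x α β : ℕ} {Er : ℝ} (h : Hpsi W q x Er) (hEr : 0 ≤ Er) (hq : 2 ≤ q) (hαβ : α ≤ β) (hβ : β ≤ q)
    (hqW : q.Coprime W) (hW : 1 < W) (hWq : W < q) (hqx : q ≤ x) :
    ((∑ a ∈ rows W q α β, piA x q a : ℕ) : ℝ) ≤
      1 + (((β : ℝ) - α) / (Nat.totient W : ℝ) + 2 * Er) * (OmW W q (x / q - 1) + w q 1) := by
  have h1 := upp x W q α β (by omega) hβ hW hWq
  have h2 : ((∑ a ∈ rows W q α β, piA x q a : ℕ) : ℝ) ≤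
      ((1 + ∑ l ∈ (Icc 1 (x / q)).filter (fun l => l.Coprime W), blk W q α β l : ℕ) : ℝ) := by exact_mod_cast h1
  refine h2.trans ?_
  push_cast
  have hαβ' : (α : ℝ) ≤ β := by exact_mod_cast hαβ
  have hA : 0 ≤ ((β : ℝ) - α) / (Nat.totient W : ℝ) + 2 * Er := by
    have : 0 ≤ ((β : ℝ) - α) / (Nat.totient W : ℝ) := div_nonneg (by linarith) (Nat.cast_nonneg _)
    linarith
  have hY : 1 ≤ x / q := Nat.div_pos hqx (by omega)
  have h3 : ∑ l ∈ (Icc 1 (x / q)).filter (fun l => l.Coprime W), (blk W q α β l : ℝ) ≤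
      ∑ l ∈ (Icc 1 (x / q)).filter (fun l => l.Coprime W), (((β : ℝ) - α) / (Nat.totient W : ℝ) + 2 * Er) * w q l := by
    apply sum_le_sum
    intro l hl
    rw [mem_filter, mem_Icc] at hl
    have hlx : (l + 1) * q ≤ 2 * x := by
      have h3 : l * q ≤ (x / q) * q := Nat.mul_le_mul_right q (by omega)
      have h4 := Nat.div_mul_le_self x q
      rw [add_mul, one_mul]
      omega
    have h3 := blk_le h hq hαβ hβ hl.1.1 hlx (Nat.Coprime.mul_left hl.2 hqW)
    refine h3.trans (le_of_eq ?_)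
    unfold w
    rw [mul_one_div]
  have h4 : ∑ l ∈ (Icc 1 (x / q)).filter (fun l => l.Coprime W), w q l ≤ OmW W q (x / q - 1) + w q 1 := by
    unfold OmW
    have e : Icc 1 (x / q) = insert (x / q) (Icc 1 (x / q - 1)) := by
      ext l; simp only [mem_insert, mem_Icc]; omega
    rw [e, filter_insert]
    split_ifs with hc
    · rw [sum_insert (by simp only [mem_filter, mem_Icc]; omega), add_comm]
      have := w_anti hq le_rfl hY
      linarith
    · have := w_nonneg q 1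
      linarith
  rw [← mul_sum] at h3
  have h5 := mul_le_mul_of_nonneg_left h4 hA
  linarith

end Pool.Agent.H527.M
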