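import Mathlib
import Pool.Agent.H527.M.M3

/-! The Maier matrix: the number of rows, the number of all primes. -/

set_option autoImplicit false

namespace Pool.Agent.H527.M

open Finset Pool.Agent.H527.AP Pool.Agent.H527.S
open Pool.Agent.X30.MF (E F)

theorem E_full (x : ℕ → ℝ) (P : Finset ℕ) : E x P P.card = ∏ p ∈ P, (1 - x p) := by
  classical
  unfold E
  have h1 : P.powerset.filter (fun s => s.card ≤ P.card) = P.powerset := by
    apply filter_true_of_mem
    intro s hs
    exact card_le_card (mem_powerset.1 hs)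
  rw [h1]
  have h2 : ∏ p ∈ P, (1 - x p) = ∏ p ∈ P, (1 + (-x p)) := by
    apply prod_congr rfl; intro p _; ring
  rw [h2, prod_one_add]
  apply sum_congr rfl
  intro s _
  have h3 : ∏ p ∈ s, (-x p) = (-1) ^ s.card * ∏ p ∈ s, x p := by
    rw [← prod_const, ← prod_mul_distrib]
    apply prod_congr rfl; intro p _; ring
  rw [h3]

/-- the integers up to `T` prime to `q` -/
theorem coprime_count (q T : ℕ) (hq : 0 < q) :
    |(((Icc 1 T).filter (fun n => n.Coprime q)).card : ℝ) - T * ((Nat.totient q : ℝ) / q)| ≤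
      (2 : ℝ) ^ q.primeFactors.card := by
  classical
  have hP : ∀ p ∈ q.primeFactors, p.Prime := fun p hp => Nat.prime_of_mem_primeFactors hp
  have h1 := count_all q.primeFactors hP T q.primeFactors.card (by
    intro s hs hc
    have := card_le_card hs
    omega) T le_rfl
  have h2 : (Icc 1 T).filter (fun h => ∀ p ∈ q.primeFactors, ¬ p ∣ h) = (Icc 1 T).filter (fun n => n.Coprime q) := by
    apply filter_congr
    intro n hn
    rw [mem_Icc] at hn
    constructor
    · intro h
      by_contra hc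
      obtain ⟨p, hp, h3, h4⟩ := Nat.Prime.not_coprime_iff_dvd.1 hc
      exact h p (Nat.mem_primeFactors.2 ⟨hp, h4, by omega⟩) h3
    · intro h p hp hd
      have h3 := Nat.mem_primeFactors.1 hp
      exact Nat.Prime.not_coprime_iff_dvd.2 ⟨p, h3.1, hd, h3.2.1⟩ h
  rw [h2, E_full] at h1
  have h3 : ∏ p ∈ q.primeFactors, (1 - 1 / (p : ℝ)) = (Nat.totient q : ℝ) / q := by
    have h4 := Nat.totient_eq_mul_prod_factors q
    have h5 : ((Nat.totient q : ℚ) : ℝ) = ((q * ∏ p ∈ q.primeFactors, (1 - (p : ℚ)⁻¹) : ℚ) : ℝ) := by rw [h4]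
    push_cast at h5
    have hq0 : (q : ℝ) ≠ 0 := by exact_mod_cast hq.ne'
    rw [h5]
    field_simp
  rw [h3] at h1
  refine h1.trans ?_
  have h4 : (Sk q.primeFactors q.primeFactors.card).card = 2 ^ q.primeFactors.card := by
    unfold Sk
    rw [filter_true_of_mem (fun s hs => card_le_card (mem_powerset.1 hs)), card_powerset]
  rw [h4]
  push_cast
  exact le_rfl

/-- the number of the rows -/
theorem rows_card (W q α β : ℕ) (hq : 0 < q) (hW : 0 < W) (hαβ : α ≤ β) (hqW : q.Coprime W) :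
    |((rows W q α β).card : ℝ) - ((β : ℝ) - α) / W * ((Nat.totient q : ℝ) / q)| ≤
      3 * (2 : ℝ) ^ q.primeFactors.card := by
  classical
  have hdiv : α / W ≤ β / W := Nat.div_le_div_right hαβ
  have h1 : (rows W q α β).card = ((Ioc (α / W) (β / W)).filter (fun n => n.Coprime q)).card := by
    symm
    apply card_bij (fun n _ => W * n)
    · intro n hn
      rw [mem_filter, mem_Ioc] at hn
      unfold rows
      rw [mem_filter, mem_Ioc]
      refine ⟨⟨?_, ?_⟩, Dvd.intro n rfl, ?_⟩
      · have h2 := (Nat.div_lt_iff_lt_mul hW).1 hn.1.1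
        rwa [mul_comm]
      · have h2 := (Nat.le_div_iff_mul_le hW).1 hn.1.2
        rwa [mul_comm]
      · exact Nat.Coprime.mul_left hqW.symm hn.2
    · intro n _ n' _ h
      exact Nat.eq_of_mul_eq_mul_left hW h
    · intro a ha
      unfold rows at ha
      rw [mem_filter, mem_Ioc] at ha
      obtain ⟨n, rfl⟩ := ha.2.1
      refine ⟨n, ?_, rfl⟩
      rw [mem_filter, mem_Ioc]
      refine ⟨⟨?_, ?_⟩, ?_⟩
      · rw [Nat.div_lt_iff_lt_mul hW, mul_comm]; exact ha.1.1
      · rw [Nat.le_div_iff_mul_le hW, mul_comm]; exact ha.1.2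
      · exact Nat.Coprime.coprime_mul_left ha.2.2
  have h2 : (((Ioc (α / W) (β / W)).filter (fun n => n.Coprime q)).card : ℝ) =
      (((Icc 1 (β / W)).filter (fun n => n.Coprime q)).card : ℝ) - (((Icc 1 (α / W)).filter (fun n => n.Coprime q)).card : ℝ) := by
    have h3 : (Icc 1 (β / W)).filter (fun n => n.Coprime q) =
        (Icc 1 (α / W)).filter (fun n => n.Coprime q) ∪ (Ioc (α / W) (β / W)).filter (fun n => n.Coprime q) := by
      ext n
      simp only [mem_filter, mem_Icc, mem_Ioc, mem_union]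
      constructor
      · rintro ⟨⟨h1, h2⟩, h3⟩
        rcases Nat.lt_or_ge (α / W) n with h | h
        · exact Or.inr ⟨⟨h, h2⟩, h3⟩
        · exact Or.inl ⟨⟨h1, h⟩, h3⟩
      · rintro (⟨⟨h1, h2⟩, h3⟩ | ⟨⟨h1, h2⟩, h3⟩)
        · exact ⟨⟨h1, h2.trans hdiv⟩, h3⟩
        · exact ⟨⟨Nat.succ_le_of_lt (Nat.lt_of_le_of_lt (Nat.zero_le _) h1), h2⟩, h3⟩
    rw [h3, card_union_of_disjoint]
    · push_cast; ring
    · rw [disjoint_left]
      intro n h4 h5
      rw [mem_filter, mem_Icc] at h4
      rw [mem_filter, mem_Ioc] at h5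
      omega
  rw [h1, h2]
  have h3 := coprime_count q (β / W) hq
  have h4 := coprime_count q (α / W) hq
  set c := (Nat.totient q : ℝ) / q with hc
  have hq0 : (0 : ℝ) < q := by exact_mod_cast hq
  have hc0 : 0 ≤ c := by rw [hc]; positivity
  have hc1 : c ≤ 1 := by
    rw [hc, div_le_one hq0]; exact_mod_cast Nat.totient_le q
  have hW0 : (0 : ℝ) < W := by exact_mod_cast hW
  have hfl : ∀ t : ℕ, (t : ℝ) / W - 1 ≤ ((t / W : ℕ) : ℝ) ∧ ((t / W : ℕ) : ℝ) ≤ (t : ℝ) / W := by
    intro t
    refine ⟨?_, Nat.cast_div_le⟩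
    have h5 : (t : ℝ) < (((t / W : ℕ) : ℝ) + 1) * W := by
      have := Nat.lt_div_mul_add (a := t) hW
      have h6 : t < (t / W + 1) * W := by rw [add_mul, one_mul]; exact this
      exact_mod_cast h6
    rw [sub_le_iff_le_add, div_le_iff₀ hW0]
    exact h5.le
  have h5 := hfl α
  have h6 := hfl β
  have h2p : (1 : ℝ) ≤ (2 : ℝ) ^ q.primeFactors.card := one_le_pow₀ (by norm_num)
  have e1 : ((β : ℝ) - α) / W * c = (β : ℝ) / W * c - (α : ℝ) / W * c := by ring
  rw [e1]
  rw [abs_le] at h3 h4 ⊢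
  have k1 : ((β / W : ℕ) : ℝ) * c ≤ (β : ℝ) / W * c := mul_le_mul_of_nonneg_right h6.2 hc0
  have k2 : ((β : ℝ) / W - 1) * c ≤ ((β / W : ℕ) : ℝ) * c := mul_le_mul_of_nonneg_right h6.1 hc0
  have k3 : ((α / W : ℕ) : ℝ) * c ≤ (α : ℝ) / W * c := mul_le_mul_of_nonneg_right h5.2 hc0
  have k4 : ((α : ℝ) / W - 1) * c ≤ ((α / W : ℕ) : ℝ) * c := mul_le_mul_of_nonneg_right h5.1 hc0
  constructor <;> linarith [h3.1, h3.2, h4.1, h4.2]

/-- the number of all primes, from below -/
theorem pi_low {q x : ℕ} {Er : ℝ} (h : Hpsi 1 q x Er) (hq : 2 ≤ q)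
    (hA : 0 ≤ (q : ℝ) - 2 * Er - R2 x) :
    ((q : ℝ) - 2 * Er - R2 x) * (Om q (x / q - 1) - w q 1) ≤ (Nat.primeCounting x : ℝ) := by
  have h1 := matrix_low (α := 0) (β := q) h hq (Nat.zero_le _) le_rfl (Nat.coprime_one_right q) (by simpa using hA)
  have h2 : OmW 1 q (x / q - 1) = Om q (x / q - 1) := by
    unfold OmW Om
    rw [filter_true_of_mem (fun l _ => Nat.coprime_one_right l)]
  rw [h2] at h1
  simp only [Nat.cast_zero, sub_zero, Nat.totient_one, Nat.cast_one, div_one] at h1
  refine h1.trans ?_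
  rw [sum_rows x 1 q 0 q le_rfl]
  have h3 : (PS x 1 q 0 q).card ≤ Nat.primeCounting x := by
    rw [Nat.primeCounting, Nat.primeCounting', Nat.count_eq_card_filter_range]
    apply card_le_card
    intro p hp
    unfold PS at hp
    rw [mem_filter, mem_Icc] at hp
    rw [mem_filter, mem_range]
    exact ⟨by omega, hp.2.1⟩
  exact_mod_cast h3

/-- the number of all primes, from above -/
theorem pi_upp {q x : ℕ} {Er : ℝ} (h : Hpsi 1 q x Er) (hEr : 0 ≤ Er) (hq : 2 ≤ q) (hqx : q ≤ x) :
    (Nat.primeCounting x : ℝ) ≤ (Nat.primeCounting q : ℝ) +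
      ((q : ℝ) + 2 * Er) * (Om q (x / q - 1) + w q 1) := by
  classical
  have h1 : Nat.primeCounting x ≤ Nat.primeCounting q + ∑ l ∈ Icc 1 (x / q), blk 1 q 0 q l := by
    rw [Nat.primeCounting, Nat.primeCounting', Nat.count_eq_card_filter_range, Nat.primeCounting,
      Nat.primeCounting', Nat.count_eq_card_filter_range]
    have h2 : (range (x + 1)).filter Nat.Prime ⊆ (range (q + 1)).filter Nat.Prime ∪
        (Icc 1 (x / q)).biUnion
          (fun l => (Ioc (l * q + 0) (l * q + q)).filter (fun p => p.Prime ∧ p ≡ l * q [MOD 1])) := by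
      intro p hp
      rw [mem_filter, mem_range] at hp
      rw [mem_union, mem_filter, mem_range, mem_biUnion]
      rcases Nat.lt_or_ge q p with h3 | h3
      · right
        have hp1 : 1 ≤ p := hp.2.one_lt.le
        have hpe := lOf_aOf (q := q) hp1
        have ha1 := aOf_pos (q := q) (p := p)
        have ha2 := aOf_le (p := p) (show 0 < q by omega)
        refine ⟨lOf q p, ?_, ?_⟩
        · rw [mem_Icc]
          constructor
          · unfold lOf
            rw [Nat.one_le_div_iff (by omega)]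
            omega
          · unfold lOf
            exact Nat.div_le_div_right (by omega)
        · rw [mem_filter, mem_Ioc]
          exact ⟨⟨by omega, by omega⟩, hp.2, Nat.modEq_one⟩
      · left
        exact ⟨by omega, hp.2⟩
    refine (card_le_card h2).trans ((card_union_le _ _).trans ?_)
    exact Nat.add_le_add_left (card_biUnion_le) _
  have h2 : (Nat.primeCounting x : ℝ) ≤ (Nat.primeCounting q : ℝ) + ∑ l ∈ Icc 1 (x / q), (blk 1 q 0 q l : ℝ) := by
    exact_mod_cast h1
  refine h2.trans ?_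
  have hY : 1 ≤ x / q := Nat.div_pos hqx (by omega)
  have h3 : ∑ l ∈ Icc 1 (x / q), (blk 1 q 0 q l : ℝ) ≤ ∑ l ∈ Icc 1 (x / q), ((q : ℝ) + 2 * Er) * w q l := by
    apply sum_le_sum
    intro l hl
    rw [mem_Icc] at hl
    have hlx : (l + 1) * q ≤ 2 * x := by
      have h3 : l * q ≤ (x / q) * q := Nat.mul_le_mul_right q (by omega)
      have h4 := Nat.div_mul_le_self x q
      rw [add_mul, one_mul]
      omega
    have h3 := blk_le h hq (Nat.zero_le q) le_rfl hl.1 hlx (Nat.coprime_one_right _)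
    simp only [Nat.cast_zero, sub_zero, Nat.totient_one, Nat.cast_one, div_one] at h3
    refine h3.trans (le_of_eq ?_)
    unfold w
    rw [mul_one_div]
  have h4 : ∑ l ∈ Icc 1 (x / q), w q l ≤ Om q (x / q - 1) + w q 1 := by
    unfold Om
    have e : Icc 1 (x / q) = insert (x / q) (Icc 1 (x / q - 1)) := by
      ext l; simp only [mem_insert, mem_Icc]; omega
    rw [e, sum_insert (by simp only [mem_Icc]; omega), add_comm]
    have := w_anti hq le_rfl hY
    linarith
  rw [← mul_sum] at h3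
  have h5 := mul_le_mul_of_nonneg_left h4 (show 0 ≤ (q : ℝ) + 2 * Er by positivity)
  linarith

end Pool.Agent.H527.M
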