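import Mathlib
import Pool.Agent.H527.M.M4

/-! The Maier matrix: comparison with the expected number of primes, frequency of the deviations. -/

set_option autoImplicit false

namespace Pool.Agent.H527.M

open Finset

theorem poly1 (F : ℝ) (hF : 0 < F) (hF2 : F ≤ 2) : 4 * (F / 1000) + (1 + F / 100) * (1 + F / 1000) ≤ 1 + F / 50 := by
  nlinarith [mul_nonneg hF.le (sub_nonneg.2 hF2)]

theorem poly2 (F : ℝ) (hF : 0 < F) (hF2 : F ≤ 2) : (1 + F / 4) * (1 + F / 100) * (1 + F / 50) ≤ 1 + 1 / 2 * F := by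
  have h2 : F * F ≤ 2 * F := by nlinarith
  have h3 : F * F * F ≤ 4 * F := by nlinarith
  have : (1 + F / 4) * (1 + F / 100) * (1 + F / 50) = 1 + (1/4 + 1/100 + 1/50) * F + (1/400 + 1/200 + 1/5000) * (F * F) + 1/20000 * (F * F * F) := by ring
  rw [this]; linarith

theorem poly3 (F : ℝ) (hF : 0 < F) (hF2 : F ≤ 2) : 1 - 1 / 2 * F ≤ (1 - F / 4) * (1 - F / 100) * ((1 - F / 100) * (1 - F / 1000)) := by
  have h2 : 0 ≤ F * F := by positivity
  have h3 : F * F * F ≤ 4 * F := by nlinarith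
  have h4 : 0 ≤ F * F * F * F := by positivity
  have : (1 - F / 4) * (1 - F / 100) * ((1 - F / 100) * (1 - F / 1000)) = 1 - (1/4 + 1/100 + 1/100 + 1/1000) * F
    + (1/400 + 1/400 + 1/4000 + 1/10000 + 1/100000 + 1/100000) * (F * F) - (1/40000 + 1/400000 + 1/400000 + 1/10000000) * (F * F * F)
    + 1/40000000 * (F * F * F * F) := by ring
  rw [this]; linarith

theorem poly4 (F g : ℝ) (hg : 0 < g) (hg1 : g ≤ 1) (hF : 0 < F) (hF2 : F ≤ 2) :
    1 + 1 / 2 * F ≤ 1 + 99 / 100 * F / g - F / 100 * (g + 99 / 100 * F) := by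
  have b2 : 99 / 100 * F ≤ 99 / 100 * F / g := by
    rw [le_div_iff₀ hg]; nlinarith
  have b3 : F / 100 * (g + 99 / 100 * F) ≤ F / 100 * 3 := by
    apply mul_le_mul_of_nonneg_left _ (by positivity); linarith
  linarith

theorem poly5 (F g : ℝ) (hg : 0 < g) (hg1 : g ≤ 1) (hF : 0 < F) :
    1 + F / 100 - 99 / 100 * F / g + F / 100 * (g - 99 / 100 * F) ≤ 1 - 1 / 2 * F := by
  have b2 : 99 / 100 * F ≤ 99 / 100 * F / g := by
    rw [le_div_iff₀ hg]; nlinarith
  have b3 : F / 100 * (g - 99 / 100 * F) ≤ F / 100 * 1 := by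
    apply mul_le_mul_of_nonneg_left _ (by positivity); linarith
  linarith

theorem w1_le (F N w1 Om : ℝ) (hN : 0 ≤ N) (hw : 0 ≤ w1) (h5 : (N + 10) * w1 ≤ F / 100 * Om) : w1 ≤ F / 1000 * Om := by
  have : 0 ≤ N * w1 := by positivity
  linarith

theorem even_om (F g N w1 Om Omc : ℝ) (h1 : F * Om - N * w1 ≤ Omc - g * Om) (h5 : (N + 10) * w1 ≤ F / 100 * Om)
    (hw : 0 ≤ w1) : (g + 99 / 100 * F) * Om ≤ Omc - w1 := by
  have : (g + 99 / 100 * F) * Om = g * Om + 99 / 100 * (F * Om) := by ring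
  rw [this]
  have : (N + 10) * w1 = N * w1 + 10 * w1 := by ring
  rw [this] at h5
  have : F / 100 * Om = (F * Om) / 100 := by ring
  rw [this] at h5
  linarith

theorem odd_om (F g N w1 Om Omc : ℝ) (h1 : F * Om - N * w1 ≤ g * Om - Omc) (h5 : (N + 10) * w1 ≤ F / 100 * Om)
    (hw : 0 ≤ w1) : Omc + w1 ≤ (g - 99 / 100 * F) * Om := by
  have : (g - 99 / 100 * F) * Om = g * Om - 99 / 100 * (F * Om) := by ring
  rw [this]
  have : (N + 10) * w1 = N * w1 + 10 * w1 := by ring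
  rw [this] at h5
  have : F / 100 * Om = (F * Om) / 100 := by ring
  rw [this] at h5
  linarith


theorem even_aux (G g F Om Omc w1 N ea R c er2 pi piq q e2 S φ : ℝ) (hG : 0 < G) (hg : 0 < g) (hg1 : g ≤ 1)
    (hF : 0 < F) (hF2 : F ≤ 2) (hOm : 0 < Om) (hw : 0 ≤ w1) (hc : 0 < c) (hq : 0 < q)
    (hφ : φ = c * q) (hpi : 0 ≤ pi)
    (h1 : F * Om - N * w1 ≤ Omc - g * Om) (h2 : (G / g - ea) * (Omc - w1) ≤ S) (h2' : ea ≤ F / 100 * G)
    (h3 : R ≤ G * c + er2) (h3' : er2 ≤ F / 100 * (G * c)) (h4 : pi ≤ piq + (q + e2) * (Om + w1))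
    (h4' : piq ≤ 4 * q * w1) (h4'' : e2 ≤ F / 100 * q) (h5 : (N + 10) * w1 ≤ F / 100 * Om) (hN : 0 ≤ N) :
    (1 + F / 4) * (R * (pi / φ)) ≤ S := by
  have hw1 : w1 ≤ F / 1000 * Om := w1_le F N w1 Om hN hw h5
  have hφ0 : 0 < φ := by rw [hφ]; positivity
  have a1 : R * (pi / φ) ≤ G * (1 + F / 100) * (pi / q) := by
    have : R ≤ (G * c) * (1 + F / 100) := by linarith
    calc R * (pi / φ) ≤ (G * c) * (1 + F / 100) * (pi / φ) := by gcongr
      _ = G * (1 + F / 100) * (pi / q) := by rw [hφ]; field_simp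
  have a2 : pi / q ≤ (1 + F / 50) * Om := by
    rw [div_le_iff₀ hq]
    have b1 : (q + e2) * (Om + w1) ≤ (q + F / 100 * q) * (Om + F / 1000 * Om) := by
      have : 0 ≤ Om + w1 := by linarith
      calc (q + e2) * (Om + w1) ≤ (q + F / 100 * q) * (Om + w1) := by gcongr
        _ ≤ _ := by gcongr
    have b2 : 4 * q * w1 ≤ 4 * q * (F / 1000 * Om) := by gcongr
    have b3 : pi ≤ q * Om * (4 * (F / 1000) + (1 + F / 100) * (1 + F / 1000)) := by
      calc pi ≤ 4 * q * (F / 1000 * Om) + (q + F / 100 * q) * (Om + F / 1000 * Om) := by linarith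
        _ = _ := by ring
    have b4 := poly1 F hF hF2
    calc pi ≤ q * Om * (4 * (F / 1000) + (1 + F / 100) * (1 + F / 1000)) := b3
      _ ≤ q * Om * (1 + F / 50) := by gcongr
      _ = _ := by ring
  have a3 : (1 + F / 4) * (R * (pi / φ)) ≤ G * Om * (1 + 1 / 2 * F) := by
    have b1 := poly2 F hF hF2
    calc (1 + F / 4) * (R * (pi / φ)) ≤ (1 + F / 4) * (G * (1 + F / 100) * ((1 + F / 50) * Om)) := by
          have : G * (1 + F / 100) * (pi / q) ≤ G * (1 + F / 100) * ((1 + F / 50) * Om) := by gcongr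
          have : R * (pi / φ) ≤ G * (1 + F / 100) * ((1 + F / 50) * Om) := a1.trans this
          gcongr
      _ = G * Om * ((1 + F / 4) * (1 + F / 100) * (1 + F / 50)) := by ring
      _ ≤ _ := by gcongr
  have a4 : (g + 99 / 100 * F) * Om ≤ Omc - w1 := even_om F g N w1 Om Omc h1 h5 hw
  have a5 : G / g - F / 100 * G ≤ G / g - ea := by linarith
  have hGg : G ≤ G / g := by
    rw [le_div_iff₀ hg]
    calc G * g ≤ G * 1 := by gcongr
      _ = G := mul_one G
  have a6 : 0 ≤ G / g - F / 100 * G := by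
    have : F / 100 * G ≤ 1 * G := by gcongr; linarith
    linarith
  have a0 : 0 ≤ (g + 99 / 100 * F) * Om := by positivity
  have a7 : (G / g - F / 100 * G) * ((g + 99 / 100 * F) * Om) ≤ S := by
    refine le_trans ?_ h2
    calc (G / g - F / 100 * G) * ((g + 99 / 100 * F) * Om) ≤ (G / g - ea) * ((g + 99 / 100 * F) * Om) := by gcongr
      _ ≤ (G / g - ea) * (Omc - w1) := mul_le_mul_of_nonneg_left a4 (a6.trans a5)
  have a8 : G * Om * (1 + 1 / 2 * F) ≤ (G / g - F / 100 * G) * ((g + 99 / 100 * F) * Om) := by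
    have b1 : (G / g - F / 100 * G) * ((g + 99 / 100 * F) * Om) =
        G * Om * (1 + 99 / 100 * F / g - F / 100 * (g + 99 / 100 * F)) := by
      field_simp
    rw [b1]
    exact mul_le_mul_of_nonneg_left (poly4 F g hg hg1 hF hF2) (by positivity)
  exact a3.trans (a8.trans a7)

theorem odd_aux (G g F Om Omc w1 N e1 R c er2 pi q ea S φ : ℝ) (hG : 0 < G) (hg : 0 < g) (hg1 : g ≤ 1)
    (hF : 0 < F) (hF2 : F ≤ 2) (hOm : 0 < Om) (hw : 0 ≤ w1) (hc : 0 < c) (hq : 0 < q) (hOmc : 0 ≤ Omc)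
    (hφ : φ = c * q)
    (h1 : F * Om - N * w1 ≤ g * Om - Omc) (h2 : S ≤ 1 + (G / g + e1) * (Omc + w1)) (h2' : e1 ≤ F / 100 * G)
    (h3 : G * c - er2 ≤ R) (h3' : er2 ≤ F / 100 * (G * c)) (h4 : (q - ea) * (Om - w1) ≤ pi)
    (h4'' : ea ≤ F / 100 * q) (h5 : (N + 10) * w1 ≤ F / 100 * Om) (hN : 0 ≤ N) (h6 : 1 ≤ F / 100 * (G * Om)) :
    S ≤ (1 - F / 4) * (R * (pi / φ)) := by
  have hw1 : w1 ≤ F / 1000 * Om := w1_le F N w1 Om hN hw h5
  have hφ0 : 0 < φ := by rw [hφ]; positivity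
  have hF1 : 0 ≤ 1 - F / 100 := by linarith
  have hF3 : 0 ≤ 1 - F / 1000 := by linarith
  have hF4 : 0 ≤ 1 - F / 4 := by linarith
  have a2 : (1 - F / 100) * (1 - F / 1000) * Om ≤ pi / q := by
    rw [le_div_iff₀ hq]
    have b1 : (q * (1 - F / 100)) * ((1 - F / 1000) * Om) ≤ (q - ea) * (Om - w1) := by
      have c1 : q * (1 - F / 100) ≤ q - ea := by linarith
      have c2 : (1 - F / 1000) * Om ≤ Om - w1 := by linarith
      have c3 : 0 ≤ q * (1 - F / 100) := by positivity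
      exact mul_le_mul c1 c2 (by positivity) (c3.trans c1)
    calc (1 - F / 100) * (1 - F / 1000) * Om * q = (q * (1 - F / 100)) * ((1 - F / 1000) * Om) := by ring
      _ ≤ pi := b1.trans h4
  have hpiq : 0 ≤ pi / q := le_trans (by positivity) a2
  have hpi : 0 ≤ pi := by
    have := mul_nonneg hpiq hq.le
    rwa [div_mul_cancel₀ _ hq.ne'] at this
  have a1 : G * (1 - F / 100) * (pi / q) ≤ R * (pi / φ) := by
    have : (G * c) * (1 - F / 100) ≤ R := by linarith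
    calc G * (1 - F / 100) * (pi / q) = (G * c) * (1 - F / 100) * (pi / φ) := by rw [hφ]; field_simp
      _ ≤ R * (pi / φ) := by gcongr
  have a3 : G * Om * (1 - 1 / 2 * F) ≤ (1 - F / 4) * (R * (pi / φ)) := by
    have b1 := poly3 F hF hF2
    calc G * Om * (1 - 1 / 2 * F) ≤ G * Om * ((1 - F / 4) * (1 - F / 100) * ((1 - F / 100) * (1 - F / 1000))) := by gcongr
      _ = (1 - F / 4) * (G * (1 - F / 100) * ((1 - F / 100) * (1 - F / 1000) * Om)) := by ring
      _ ≤ (1 - F / 4) * (G * (1 - F / 100) * (pi / q)) := by gcongr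
      _ ≤ _ := mul_le_mul_of_nonneg_left a1 hF4
  have a4 : Omc + w1 ≤ (g - 99 / 100 * F) * Om := odd_om F g N w1 Om Omc h1 h5 hw
  have hGg0 : 0 < G / g := by positivity
  have a5 : S ≤ F / 100 * (G * Om) + (G / g + F / 100 * G) * ((g - 99 / 100 * F) * Om) := by
    have b0 : 0 ≤ Omc + w1 := by linarith
    have b1 : (G / g + e1) * (Omc + w1) ≤ (G / g + F / 100 * G) * (Omc + w1) := by gcongr
    have b2 : (G / g + F / 100 * G) * (Omc + w1) ≤ (G / g + F / 100 * G) * ((g - 99 / 100 * F) * Om) :=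
      mul_le_mul_of_nonneg_left a4 (by positivity)
    linarith
  have a6 : F / 100 * (G * Om) + (G / g + F / 100 * G) * ((g - 99 / 100 * F) * Om) =
      G * Om * (1 + F / 100 - 99 / 100 * F / g + F / 100 * (g - 99 / 100 * F)) := by
    field_simp
    ring
  have a7 := poly5 F g hg hg1 hF
  have a8 : G * Om * (1 + F / 100 - 99 / 100 * F / g + F / 100 * (g - 99 / 100 * F)) ≤ G * Om * (1 - 1 / 2 * F) := by
    gcongr
  rw [a6] at a5
  exact a5.trans (a8.trans a3)

/-- frequency, too many primes -/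
theorem freq_many (s : Finset ℕ) (f : ℕ → ℝ) (e F B : ℝ) (he : 0 ≤ e) (hF : 0 ≤ F) (hB : ∀ a ∈ s, f a ≤ B) (hB0 : 0 < B)
    (h : (1 + F / 4) * (s.card * e) ≤ ∑ a ∈ s, f a) :
    s.card * (e * (F / 8)) / B ≤ ((s.filter (fun a => (1 + F / 8) * e ≤ f a)).card : ℝ) := by
  classical
  rw [div_le_iff₀ hB0]
  have h1 : ∑ a ∈ s, f a ≤ ((s.filter (fun a => (1 + F / 8) * e ≤ f a)).card : ℝ) * B + s.card * ((1 + F / 8) * e) := by
    rw [← sum_filter_add_sum_filter_not s (fun a => (1 + F / 8) * e ≤ f a)]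
    apply add_le_add
    · rw [← nsmul_eq_mul]
      apply sum_le_card_nsmul
      intro a ha
      exact hB a (mem_filter.1 ha).1
    · have h2 : ∑ a ∈ s.filter (fun a => ¬ (1 + F / 8) * e ≤ f a), f a ≤
          ((s.filter (fun a => ¬ (1 + F / 8) * e ≤ f a)).card : ℝ) * ((1 + F / 8) * e) := by
        rw [← nsmul_eq_mul]
        apply sum_le_card_nsmul
        intro a ha
        exact (not_le.1 (mem_filter.1 ha).2).le
      refine h2.trans ?_
      apply mul_le_mul_of_nonneg_right _ (by positivity)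
      exact_mod_cast card_filter_le _ _
  nlinarith

/-- frequency, too few primes -/
theorem freq_few (s : Finset ℕ) (f : ℕ → ℝ) (e F : ℝ) (he : 0 < e) (hF : 0 ≤ F) (hF2 : F ≤ 2) (hf : ∀ a ∈ s, 0 ≤ f a)
    (h : ∑ a ∈ s, f a ≤ (1 - F / 4) * (s.card * e)) :
    s.card * (F / 8) ≤ ((s.filter (fun a => f a ≤ (1 - F / 8) * e)).card : ℝ) := by
  classical
  have h1 : ((s.filter (fun a => ¬ f a ≤ (1 - F / 8) * e)).card : ℝ) * ((1 - F / 8) * e) ≤ ∑ a ∈ s, f a := by
    rw [← sum_filter_add_sum_filter_not s (fun a => f a ≤ (1 - F / 8) * e)]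
    have h2 : 0 ≤ ∑ a ∈ s.filter (fun a => f a ≤ (1 - F / 8) * e), f a :=
      sum_nonneg fun a ha => hf a (mem_filter.1 ha).1
    have h3 : ((s.filter (fun a => ¬ f a ≤ (1 - F / 8) * e)).card : ℝ) * ((1 - F / 8) * e) ≤
        ∑ a ∈ s.filter (fun a => ¬ f a ≤ (1 - F / 8) * e), f a := by
      rw [← nsmul_eq_mul]
      apply card_nsmul_le_sum
      intro a ha
      exact (not_le.1 (mem_filter.1 ha).2).le
    linarith
  have h2 : (s.card : ℝ) = ((s.filter (fun a => f a ≤ (1 - F / 8) * e)).card : ℝ) +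
      ((s.filter (fun a => ¬ f a ≤ (1 - F / 8) * e)).card : ℝ) := by
    exact_mod_cast (card_filter_add_card_filter_not (s := s) (fun a => f a ≤ (1 - F / 8) * e)).symm
  set g := ((s.filter (fun a => f a ≤ (1 - F / 8) * e)).card : ℝ) with hg
  set b := ((s.filter (fun a => ¬ f a ≤ (1 - F / 8) * e)).card : ℝ) with hb
  have hg0 : 0 ≤ g := Nat.cast_nonneg _
  have hs0 : (0 : ℝ) ≤ s.card := Nat.cast_nonneg _
  have h3 : b * (1 - F / 8) ≤ (1 - F / 4) * s.card := by
    have h4 : (b * (1 - F / 8)) * e ≤ ((1 - F / 4) * s.card) * e := by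
      calc (b * (1 - F / 8)) * e = b * ((1 - F / 8) * e) := by ring
        _ ≤ (1 - F / 4) * (s.card * e) := h1.trans h
        _ = _ := by ring
    exact le_of_mul_le_mul_right h4 he
  have hb' : b = s.card - g := by linarith
  rw [hb'] at h3
  nlinarith

end Pool.Agent.H527.M
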