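import Mathlib
import Pool.Agent.H527.M.M5

/-! The Maier matrix: the two inequalities for the mean of the rows, and the number of the irregular classes. -/

set_option autoImplicit false

namespace Pool.Agent.H527.M

open Finset Pool.Agent.H527.AP Pool.Agent.H527.S
open Pool.Agent.X30.MF (E F)

/-- the hypotheses of the computation -/
structure Dat (x q α β k : ℕ) (P : Finset ℕ) (Er : ℝ) : Prop where
  hP : ∀ p ∈ P, p.Prime
  hPq : ∀ p ∈ P, ¬ p ∣ q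
  hq : 2 ≤ q
  hY : 2 ≤ x / q
  hαβ : α ≤ β
  hβ : β ≤ q
  hEr : 0 ≤ Er
  hW : Hpsi (∏ p ∈ P, p) q x Er
  h1 : Hpsi 1 q x Er
  hF0 : 0 < F (fun p => 1 / (p : ℝ)) P k
  hg : 1 / 2 ≤ ∏ p ∈ P, (1 - 1 / (p : ℝ))
  hk : ∀ s, s ⊆ P → s.card = k + 1 → (x : ℝ) / q < ((∏ p ∈ s, p : ℕ) : ℝ)
  hN : ((Sk P k).card + 10) * w q 1 ≤ F (fun p => 1 / (p : ℝ)) P k / 100 * Om q (x / q - 1)
  hE : 2 * Er + R2 x ≤ F (fun p => 1 / (p : ℝ)) P k / 100 * (((β : ℝ) - α) / (∏ p ∈ P, p : ℕ))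
  hR : 3 * (2 : ℝ) ^ q.primeFactors.card ≤ F (fun p => 1 / (p : ℝ)) P k / 100 *
    ((((β : ℝ) - α) / (∏ p ∈ P, p : ℕ)) * ((Nat.totient q : ℝ) / q))
  hpi : (Nat.primeCounting q : ℝ) ≤ 4 * q * w q 1
  h1G : 1 ≤ F (fun p => 1 / (p : ℝ)) P k / 100 * ((((β : ℝ) - α) / (∏ p ∈ P, p : ℕ)) * Om q (x / q - 1))

theorem tot_prod (P : Finset ℕ) (hP : ∀ p ∈ P, p.Prime) :
    (Nat.totient (∏ p ∈ P, p) : ℝ) = (∏ p ∈ P, (1 - 1 / (p : ℝ))) * ((∏ p ∈ P, p : ℕ) : ℝ) := by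
  classical
  induction P using Finset.induction_on with
  | empty => simp
  | insert p P hp ih =>
    have hpp := hP p (mem_insert_self _ _)
    rw [prod_insert hp, prod_insert hp, Nat.totient_mul, Nat.totient_prime hpp]
    · push_cast
      rw [ih (fun p' h => hP p' (mem_insert_of_mem h))]
      have hp0 : (p : ℝ) ≠ 0 := by exact_mod_cast hpp.ne_zero
      rw [Nat.cast_sub hpp.one_lt.le]
      push_cast
      field_simp
    · rw [Nat.coprime_prod_right_iff]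
      intro p' hp'
      rw [Nat.coprime_primes hpp (hP p' (mem_insert_of_mem hp'))]
      rintro rfl
      exact hp hp'

theorem Om_nonneg (q M : ℕ) : 0 ≤ Om q M := sum_nonneg fun l _ => w_nonneg q l

theorem OmW_le (W q M : ℕ) : OmW W q M ≤ Om q M :=
  sum_le_sum_of_subset_of_nonneg (filter_subset _ _) (fun l _ _ => w_nonneg q l)

theorem OmW_nonneg (W q M : ℕ) : 0 ≤ OmW W q M := sum_nonneg fun l _ => w_nonneg q l

theorem Dat.facts {x q α β k : ℕ} {P : Finset ℕ} {Er : ℝ} (D : Dat x q α β k P Er) :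
    0 < ((β : ℝ) - α) / (∏ p ∈ P, p : ℕ) ∧ F (fun p => 1 / (p : ℝ)) P k ≤ 2 ∧ 0 < Om q (x / q - 1) ∧
      0 < (Nat.totient q : ℝ) / q ∧ (∏ p ∈ P, (1 - 1 / (p : ℝ))) ≤ 1 ∧
      ((β : ℝ) - α) / (∏ p ∈ P, p : ℕ) ≤ q ∧
      ((β : ℝ) - α) / (Nat.totient (∏ p ∈ P, p) : ℝ) =
        (((β : ℝ) - α) / (∏ p ∈ P, p : ℕ)) / (∏ p ∈ P, (1 - 1 / (p : ℝ))) := by
  obtain ⟨Fv, hFv⟩ : ∃ Fv, Fv = F (fun p => 1 / (p : ℝ)) P k := ⟨_, rfl⟩
  have hF0 := D.hF0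
  have h1G := D.h1G
  have hN := D.hN
  have hq := D.hq
  rw [← hFv] at hF0 h1G hN ⊢
  have hWpos : (0 : ℝ) < ((∏ p ∈ P, p : ℕ) : ℝ) := by
    exact_mod_cast Finset.prod_pos fun p hp => (D.hP p hp).pos
  have hW1 : (1 : ℝ) ≤ ((∏ p ∈ P, p : ℕ) : ℝ) := by
    exact_mod_cast Finset.prod_pos fun p hp => (D.hP p hp).pos
  have hab : (α : ℝ) ≤ β := by exact_mod_cast D.hαβ
  have hβq : (β : ℝ) ≤ q := by exact_mod_cast D.hβ
  have hq0 : (0 : ℝ) < q := by exact_mod_cast (by omega : 0 < q)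
  have hG0 : 0 ≤ ((β : ℝ) - α) / (∏ p ∈ P, p : ℕ) := div_nonneg (by linarith) hWpos.le
  have hOm0 := Om_nonneg q (x / q - 1)
  have hG : 0 < ((β : ℝ) - α) / (∏ p ∈ P, p : ℕ) := by
    rcases hG0.lt_or_eq with h | h
    · exact h
    · rw [← h, zero_mul, mul_zero] at h1G; linarith
  have hOm : 0 < Om q (x / q - 1) := by
    rcases hOm0.lt_or_eq with h | h
    · exact h
    · rw [← h, mul_zero, mul_zero] at h1G; linarith
  have hφ : (0 : ℝ) < (Nat.totient q : ℝ) := by exact_mod_cast Nat.totient_pos.2 (by omega)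
  have hw0 := w_nonneg q 1
  have hg1 : (∏ p ∈ P, (1 - 1 / (p : ℝ))) ≤ 1 := by
    apply Finset.prod_le_one
    · intro p hp
      have : (1 : ℝ) ≤ p := by exact_mod_cast (D.hP p hp).one_lt.le
      have : 1 / (p : ℝ) ≤ 1 := by rw [div_le_one (by linarith)]; exact this
      linarith
    · intro p hp
      have : 0 ≤ 1 / (p : ℝ) := by positivity
      linarith
  refine ⟨hG, ?_, hOm, div_pos hφ hq0, hg1, ?_, ?_⟩
  · have h2 := OmW_dev P D.hP k q (x / q - 1) hq (by have := D.hY; omega) (by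
      intro s hs hc
      have h3 := D.hk s hs hc
      have h4 : ((x / q : ℕ) : ℝ) ≤ (x : ℝ) / q := Nat.cast_div_le
      have h5 : ((x / q : ℕ) : ℝ) < ((∏ p ∈ s, p : ℕ) : ℝ) := lt_of_le_of_lt h4 h3
      have h6 : x / q < ∏ p ∈ s, p := by exact_mod_cast h5
      have := D.hY
      omega)
    rw [← hFv] at h2
    have h3 : (-1 : ℝ) ^ k * (OmW (∏ p ∈ P, p) q (x / q - 1) - (∏ p ∈ P, (1 - 1 / (p : ℝ))) * Om q (x / q - 1)) ≤
        Om q (x / q - 1) := by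
      have h4 := OmW_le (∏ p ∈ P, p) q (x / q - 1)
      have h5 := OmW_nonneg (∏ p ∈ P, p) q (x / q - 1)
      have hg := D.hg
      have h6 : 0 ≤ (∏ p ∈ P, (1 - 1 / (p : ℝ))) * Om q (x / q - 1) := mul_nonneg (by linarith) hOm0
      have h7 : (∏ p ∈ P, (1 - 1 / (p : ℝ))) * Om q (x / q - 1) ≤ 1 * Om q (x / q - 1) := by gcongr
      rcases neg_one_pow_eq_or ℝ k with e | e <;> rw [e] <;> linarith
    have h4 : ((Sk P k).card : ℝ) * w q 1 ≤ Fv / 100 * Om q (x / q - 1) := by linarith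
    have h5 : Fv * Om q (x / q - 1) ≤ 2 * Om q (x / q - 1) := by nlinarith
    exact le_of_mul_le_mul_right h5 hOm
  · rw [div_le_iff₀ hWpos]
    have : (0 : ℝ) ≤ α := Nat.cast_nonneg _
    nlinarith
  · rw [tot_prod P D.hP, div_div, mul_comm]

theorem Dat.dev {x q α β k : ℕ} {P : Finset ℕ} {Er : ℝ} (D : Dat x q α β k P Er) :
    F (fun p => 1 / (p : ℝ)) P k * Om q (x / q - 1) - (Sk P k).card * w q 1 ≤
      (-1) ^ k * (OmW (∏ p ∈ P, p) q (x / q - 1) - (∏ p ∈ P, (1 - 1 / (p : ℝ))) * Om q (x / q - 1)) := by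
  refine OmW_dev P D.hP k q (x / q - 1) D.hq (by have := D.hY; omega) ?_
  intro s hs hc
  have h3 := D.hk s hs hc
  have h4 : ((x / q : ℕ) : ℝ) ≤ (x : ℝ) / q := Nat.cast_div_le
  have h5 : ((x / q : ℕ) : ℝ) < ((∏ p ∈ s, p : ℕ) : ℝ) := lt_of_le_of_lt h4 h3
  have h6 : x / q < ∏ p ∈ s, p := by exact_mod_cast h5
  have := D.hY
  omega

theorem Dat.cop {x q α β k : ℕ} {P : Finset ℕ} {Er : ℝ} (D : Dat x q α β k P Er) :
    q.Coprime (∏ p ∈ P, p) := (coprime_prod D.hP q).2 D.hPq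

theorem Dat.qx {x q α β k : ℕ} {P : Finset ℕ} {Er : ℝ} (D : Dat x q α β k P Er) : q ≤ x := by
  by_contra h
  have := Nat.div_eq_of_lt (not_le.1 h)
  have := D.hY
  omega

/-- the mean over the rows is too large -/
theorem Dat.even {x q α β k : ℕ} {P : Finset ℕ} {Er : ℝ} (D : Dat x q α β k P Er) (hk : k % 2 = 0) :
    (1 + F (fun p => 1 / (p : ℝ)) P k / 4) * (((rows (∏ p ∈ P, p) q α β).card : ℝ) *
      ((Nat.primeCounting x : ℝ) / (Nat.totient q : ℝ))) ≤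
      ((∑ a ∈ rows (∏ p ∈ P, p) q α β, piA x q a : ℕ) : ℝ) := by
  obtain ⟨hG, hF2, hOm, hc, hg1, hGq, hφW⟩ := D.facts
  have hdev := D.dev
  have hsgn : (-1 : ℝ) ^ k = 1 := Even.neg_one_pow (Nat.even_iff.2 hk)
  rw [hsgn, one_mul] at hdev
  have hq0 : (0 : ℝ) < q := by exact_mod_cast (by have := D.hq; omega : 0 < q)
  have hWpos : 0 < ∏ p ∈ P, p := Finset.prod_pos fun p hp => (D.hP p hp).pos
  have hR0 : 0 ≤ R2 x := by unfold R2; positivity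
  have hE := D.hE
  have hEr := D.hEr
  have hFp := D.hF0
  have hrows := rows_card (∏ p ∈ P, p) q α β (by have := D.hq; omega) hWpos D.hαβ D.cop
  rw [abs_le] at hrows
  have hg0 : 0 < (∏ p ∈ P, (1 - 1 / (p : ℝ))) := by have := D.hg; linarith
  have hGg : ((β : ℝ) - α) / (∏ p ∈ P, p : ℕ) ≤ (((β : ℝ) - α) / (∏ p ∈ P, p : ℕ)) / (∏ p ∈ P, (1 - 1 / (p : ℝ))) := by
    rw [le_div_iff₀ hg0]
    calc ((β : ℝ) - α) / (∏ p ∈ P, p : ℕ) * (∏ p ∈ P, (1 - 1 / (p : ℝ))) ≤ ((β : ℝ) - α) / (∏ p ∈ P, p : ℕ) * 1 := by gcongr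
      _ = _ := mul_one _
  have hFG : F (fun p => 1 / (p : ℝ)) P k / 100 * (((β : ℝ) - α) / (∏ p ∈ P, p : ℕ)) ≤ 1 * (((β : ℝ) - α) / (∏ p ∈ P, p : ℕ)) := by
    gcongr
    linarith
  have hml := matrix_low D.hW D.hq D.hαβ D.hβ D.cop (by rw [hφW]; linarith)
  rw [hφW] at hml
  have hpu := pi_upp D.h1 hEr D.hq D.qx
  refine even_aux (G := ((β : ℝ) - α) / (∏ p ∈ P, p : ℕ)) (g := ∏ p ∈ P, (1 - 1 / (p : ℝ)))
    (F := F (fun p => 1 / (p : ℝ)) P k) (Om := Om q (x / q - 1)) (Omc := OmW (∏ p ∈ P, p) q (x / q - 1)) (w1 := w q 1)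
    (N := (Sk P k).card) (ea := 2 * Er + R2 x) (c := (Nat.totient q : ℝ) / q) (er2 := 3 * (2 : ℝ) ^ q.primeFactors.card)
    (piq := Nat.primeCounting q) (q := q) (e2 := 2 * Er) (R := (rows (∏ p ∈ P, p) q α β).card)
    (pi := Nat.primeCounting x) (S := ((∑ a ∈ rows (∏ p ∈ P, p) q α β, piA x q a : ℕ) : ℝ)) (φ := Nat.totient q) hG hg0 hg1 hFp hF2 hOm (w_nonneg q 1) hc hq0 ?_
    (Nat.cast_nonneg _) hdev ?_ hE ?_ D.hR hpu D.hpi ?_ D.hN (Nat.cast_nonneg _)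
  · field_simp
  · refine le_trans (le_of_eq ?_) hml
    ring
  · linarith [hrows.2]
  · have : F (fun p => 1 / (p : ℝ)) P k / 100 * (((β : ℝ) - α) / (∏ p ∈ P, p : ℕ)) ≤ F (fun p => 1 / (p : ℝ)) P k / 100 * q := by
      gcongr
    linarith

/-- the mean over the rows is too small -/
theorem Dat.odd {x q α β k : ℕ} {P : Finset ℕ} {Er : ℝ} (D : Dat x q α β k P Er) (hk : k % 2 = 1)
    (hW1 : 1 < ∏ p ∈ P, p) (hWq : (∏ p ∈ P, p) < q) :
    ((∑ a ∈ rows (∏ p ∈ P, p) q α β, piA x q a : ℕ) : ℝ) ≤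
    (1 - F (fun p => 1 / (p : ℝ)) P k / 4) * (((rows (∏ p ∈ P, p) q α β).card : ℝ) *
      ((Nat.primeCounting x : ℝ) / (Nat.totient q : ℝ))) := by
  obtain ⟨hG, hF2, hOm, hc, hg1, hGq, hφW⟩ := D.facts
  have hdev := D.dev
  have hsgn : (-1 : ℝ) ^ k = -1 := Odd.neg_one_pow (Nat.odd_iff.2 hk)
  rw [hsgn] at hdev
  have hq0 : (0 : ℝ) < q := by exact_mod_cast (by have := D.hq; omega : 0 < q)
  have hWpos : 0 < ∏ p ∈ P, p := Finset.prod_pos fun p hp => (D.hP p hp).pos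
  have hR0 : 0 ≤ R2 x := by unfold R2; positivity
  have hE := D.hE
  have hEr := D.hEr
  have hFp := D.hF0
  have hrows := rows_card (∏ p ∈ P, p) q α β (by have := D.hq; omega) hWpos D.hαβ D.cop
  rw [abs_le] at hrows
  have hg0 : 0 < (∏ p ∈ P, (1 - 1 / (p : ℝ))) := by have := D.hg; linarith
  have hmu := matrix_upp D.hW hEr D.hq D.hαβ D.hβ D.cop hW1 hWq D.qx
  rw [hφW] at hmu
  have hFGq : F (fun p => 1 / (p : ℝ)) P k / 100 * (((β : ℝ) - α) / (∏ p ∈ P, p : ℕ)) ≤ F (fun p => 1 / (p : ℝ)) P k / 100 * q := by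
    gcongr
  have hFq : F (fun p => 1 / (p : ℝ)) P k / 100 * q ≤ 1 * q := by
    gcongr
    linarith
  have hpl := pi_low D.h1 D.hq (by linarith)
  refine odd_aux (G := ((β : ℝ) - α) / (∏ p ∈ P, p : ℕ)) (g := ∏ p ∈ P, (1 - 1 / (p : ℝ)))
    (F := F (fun p => 1 / (p : ℝ)) P k) (Om := Om q (x / q - 1)) (Omc := OmW (∏ p ∈ P, p) q (x / q - 1)) (w1 := w q 1)
    (N := (Sk P k).card) (e1 := 2 * Er) (c := (Nat.totient q : ℝ) / q) (er2 := 3 * (2 : ℝ) ^ q.primeFactors.card)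
    (q := q) (ea := 2 * Er + R2 x) (R := (rows (∏ p ∈ P, p) q α β).card)
    (pi := Nat.primeCounting x) (S := ((∑ a ∈ rows (∏ p ∈ P, p) q α β, piA x q a : ℕ) : ℝ)) (φ := Nat.totient q) hG hg0 hg1 hFp hF2 hOm (w_nonneg q 1) hc hq0 (OmW_nonneg _ _ _) ?_
    ?_ hmu ?_ ?_ D.hR ?_ ?_ D.hN (Nat.cast_nonneg _) D.h1G
  · field_simp
  · linarith
  · linarith
  · linarith [hrows.1]
  · refine le_trans (le_of_eq ?_) hpl
    ring
  · linarith

end Pool.Agent.H527.M
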