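import Mathlib
import Pool.Agent.H527.M.M6

/-! The Maier matrix: the number of the irregular classes. -/

set_option autoImplicit false

namespace Pool.Agent.H527.M

open Finset Pool.Agent.H527.AP Pool.Agent.H527.S
open Pool.Agent.X30.MF (E F)

theorem piA_le {x q a : ℕ} (ha : 0 < a) (haq : a ≤ q) : piA x q a ≤ x / q + 1 := by
  unfold piA
  rw [← card_range (x / q + 1)]
  apply card_le_card_of_injOn (fun p => lOf q p)
  · intro p hp
    rw [mem_coe, mem_filter, mem_Icc] at hp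
    rw [mem_coe, mem_range]
    unfold lOf
    exact Nat.lt_succ_of_le (Nat.div_le_div_right (by omega))
  · intro p hp p' hp' h
    rw [mem_coe, mem_filter, mem_Icc] at hp hp'
    have h1 := (modEq_iff hp.1.1 ha haq).1 hp.2.2
    have h2 := (modEq_iff hp'.1.1 ha haq).1 hp'.2.2
    simp only at h
    rw [lOf_aOf (q := q) hp.1.1, lOf_aOf (q := q) hp'.1.1, h1, h2, h]

theorem Om_ge {x q : ℕ} (hq : 2 ≤ q) (hY : 2 ≤ x / q) :
    ((x / q - 1 : ℕ) : ℝ) / Real.log x ≤ Om q (x / q - 1) := by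
  have hMx : (x / q - 1) * q ≤ x := (Nat.mul_le_mul_right q (by omega)).trans (Nat.div_mul_le_self x q)
  have h1 : ∀ l ∈ Icc 1 (x / q - 1), 1 / Real.log x ≤ w q l := by
    intro l hl
    rw [mem_Icc] at hl
    unfold w
    have hq2 : (2 : ℝ) ≤ q := by exact_mod_cast hq
    have hl1 : (1 : ℝ) ≤ l := by exact_mod_cast hl.1
    have h2 : (2 : ℝ) ≤ l * q := by nlinarith
    apply one_div_le_one_div_of_le (Real.log_pos (by linarith))
    apply Real.log_le_log (by linarith)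
    have h3 : l * q ≤ x := (Nat.mul_le_mul_right q hl.2).trans hMx
    exact_mod_cast h3
  unfold Om
  have h2 := card_nsmul_le_sum (Icc 1 (x / q - 1)) (fun l => w q l) _ h1
  rw [Nat.card_Icc, nsmul_eq_mul, Nat.add_sub_cancel, mul_one_div] at h2
  exact h2

/-- a product over distinct integers `≥ 2` -/
theorem prod_ge_card (n : ℕ) : ∀ A : Finset ℕ, A.card = n → (∀ a ∈ A, 2 ≤ a) →
    1 / ((n : ℝ) + 1) ≤ ∏ a ∈ A, (1 - 1 / (a : ℝ)) := by
  induction n with
  | zero =>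
    intro A hA _
    rw [card_eq_zero] at hA
    simp [hA]
  | succ n ih =>
    intro A hA h2
    have hne : A.Nonempty := by rw [← card_pos]; omega
    obtain ⟨m, hm⟩ : ∃ m, m = A.max' hne := ⟨_, rfl⟩
    have hmA : m ∈ A := by rw [hm]; exact A.max'_mem hne
    have hsub : A ⊆ Icc 2 m := by
      intro a ha
      rw [mem_Icc]
      exact ⟨h2 a ha, by rw [hm]; exact A.le_max' a ha⟩
    have hcard := card_le_card hsub
    rw [Nat.card_Icc, hA] at hcard
    have h3 := ih (A.erase m) (by rw [card_erase_of_mem hmA, hA]; rfl) (fun a ha => h2 a (mem_of_mem_erase ha))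
    rw [← mul_prod_erase A _ hmA]
    have hmn : (n : ℝ) + 2 ≤ m := by exact_mod_cast (by omega : n + 2 ≤ m)
    have hn0 : (0 : ℝ) ≤ n := Nat.cast_nonneg _
    have h4 : 1 - 1 / ((n : ℝ) + 2) ≤ 1 - 1 / (m : ℝ) := by
      have : 1 / (m : ℝ) ≤ 1 / ((n : ℝ) + 2) := one_div_le_one_div_of_le (by linarith) hmn
      linarith
    have h5 : 0 ≤ 1 - 1 / ((n : ℝ) + 2) := by
      have : 1 / ((n : ℝ) + 2) ≤ 1 := by rw [div_le_one (by linarith)]; linarith
      linarith
    calc 1 / (((n + 1 : ℕ) : ℝ) + 1) = (1 - 1 / ((n : ℝ) + 2)) * (1 / ((n : ℝ) + 1)) := by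
          push_cast
          field_simp
          ring
      _ ≤ _ := mul_le_mul h4 h3 (by positivity) (h5.trans h4)

theorem tot_ge {q : ℕ} (hq : 0 < q) : 1 / ((q.primeFactors.card : ℝ) + 1) ≤ (Nat.totient q : ℝ) / q := by
  have h3 : ∏ p ∈ q.primeFactors, (1 - 1 / (p : ℝ)) = (Nat.totient q : ℝ) / q := by
    have h4 := Nat.totient_eq_mul_prod_factors q
    have h5 : ((Nat.totient q : ℚ) : ℝ) = ((q * ∏ p ∈ q.primeFactors, (1 - (p : ℚ)⁻¹) : ℚ) : ℝ) := by rw [h4]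
    push_cast at h5
    have hq0 : (q : ℝ) ≠ 0 := by exact_mod_cast hq.ne'
    rw [h5]
    field_simp
  rw [← h3]
  exact prod_ge_card _ _ rfl (fun p hp => (Nat.prime_of_mem_primeFactors hp).two_le)

theorem pow_omega_le_self {q : ℕ} (hq : 0 < q) : 2 ^ q.primeFactors.card ≤ q := by
  calc 2 ^ q.primeFactors.card = ∏ _p ∈ q.primeFactors, 2 := by rw [prod_const]
    _ ≤ ∏ p ∈ q.primeFactors, p := prod_le_prod' fun p hp => (Nat.prime_of_mem_primeFactors hp).two_le
    _ ≤ q := Nat.le_of_dvd hq (Nat.prod_primeFactors_dvd q)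

theorem pow_omega_le {q : ℕ} (hq : 0 < q) : (2 ^ q.primeFactors.card) ^ 8 ≤ 256 ^ 257 * q := by
  have h1 : (2 ^ q.primeFactors.card) ^ 8 = ∏ _p ∈ q.primeFactors, 256 := by
    rw [prod_const, ← pow_mul, mul_comm, pow_mul]
    norm_num
  rw [h1, ← prod_filter_mul_prod_filter_not q.primeFactors (fun p => p ≤ 256)]
  apply Nat.mul_le_mul
  · rw [prod_const]
    apply Nat.pow_le_pow_right (by norm_num)
    calc (q.primeFactors.filter (fun p => p ≤ 256)).card ≤ (range 257).card := by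
          apply card_le_card
          intro p hp
          rw [mem_filter] at hp
          rw [mem_range]
          omega
      _ = 257 := card_range _
  · calc ∏ _p ∈ q.primeFactors.filter (fun p => ¬ p ≤ 256), 256 ≤ ∏ p ∈ q.primeFactors.filter (fun p => ¬ p ≤ 256), p := by
          apply prod_le_prod'
          intro p hp
          rw [mem_filter] at hp
          omega
      _ ≤ ∏ p ∈ q.primeFactors, p := by
          apply prod_le_prod_of_subset_of_one_le' (filter_subset _ _)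
          intro p hp _
          exact (Nat.prime_of_mem_primeFactors hp).one_lt.le
      _ ≤ q := Nat.le_of_dvd hq (Nat.prod_primeFactors_dvd q)

theorem omega_le_log {q : ℕ} (hq : 0 < q) : (q.primeFactors.card : ℝ) * Real.log 2 ≤ Real.log q := by
  have h1 := pow_omega_le_self hq
  have h2 : ((2 : ℝ) ^ q.primeFactors.card) ≤ q := by exact_mod_cast h1
  have h3 := Real.log_le_log (by positivity) h2
  rwa [Real.log_pow] at h3

theorem Dat.rows_ge {x q α β k : ℕ} {P : Finset ℕ} {Er : ℝ} (D : Dat x q α β k P Er) :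
    (((β : ℝ) - α) / (∏ p ∈ P, p : ℕ)) * ((Nat.totient q : ℝ) / q) / 2 ≤ ((rows (∏ p ∈ P, p) q α β).card : ℝ) := by
  obtain ⟨hG, hF2, hOm, hc, hg1, hGq, hφW⟩ := D.facts
  have hWpos : 0 < ∏ p ∈ P, p := Finset.prod_pos fun p hp => (D.hP p hp).pos
  have hrows := rows_card (∏ p ∈ P, p) q α β (by have := D.hq; omega) hWpos D.hαβ D.cop
  rw [abs_le] at hrows
  have hR := D.hR
  have h1 : F (fun p => 1 / (p : ℝ)) P k / 100 *
    ((((β : ℝ) - α) / (∏ p ∈ P, p : ℕ)) * ((Nat.totient q : ℝ) / q)) ≤ 1 / 2 *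
    ((((β : ℝ) - α) / (∏ p ∈ P, p : ℕ)) * ((Nat.totient q : ℝ) / q)) := by
    apply mul_le_mul_of_nonneg_right _ (by positivity)
    linarith
  linarith [hrows.1]

theorem Dat.pi_ge {x q α β k : ℕ} {P : Finset ℕ} {Er : ℝ} (D : Dat x q α β k P Er) :
    (q : ℝ) * Om q (x / q - 1) / 2 ≤ (Nat.primeCounting x : ℝ) := by
  obtain ⟨hG, hF2, hOm, hc, hg1, hGq, hφW⟩ := D.facts
  have hE := D.hE
  have hFp := D.hF0
  have hq0 : (0 : ℝ) < q := by exact_mod_cast (by have := D.hq; omega : 0 < q)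
  have hFG : F (fun p => 1 / (p : ℝ)) P k / 100 * (((β : ℝ) - α) / (∏ p ∈ P, p : ℕ)) ≤ 1 / 50 * q := by
    apply mul_le_mul _ hGq hG.le (by norm_num)
    linarith
  have hpl := pi_low D.h1 D.hq (by linarith)
  have hw1 := w1_le _ _ _ _ (Nat.cast_nonneg (Sk P k).card) (w_nonneg q 1) D.hN
  have hw2 : F (fun p => 1 / (p : ℝ)) P k / 1000 * Om q (x / q - 1) ≤ 1 / 500 * Om q (x / q - 1) := by
    apply mul_le_mul_of_nonneg_right _ hOm.le
    linarith
  refine le_trans ?_ hpl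
  have h1 : 49 / 50 * (q : ℝ) ≤ (q : ℝ) - 2 * Er - R2 x := by linarith
  have h2 : 499 / 500 * Om q (x / q - 1) ≤ Om q (x / q - 1) - w q 1 := by linarith
  calc (q : ℝ) * Om q (x / q - 1) / 2 ≤ (49 / 50 * (q : ℝ)) * (499 / 500 * Om q (x / q - 1)) := by
        have : 0 ≤ (q : ℝ) * Om q (x / q - 1) := by positivity
        linarith
    _ ≤ _ := mul_le_mul h1 h2 (by positivity) ((by positivity : (0 : ℝ) ≤ 49 / 50 * (q : ℝ)).trans h1)

theorem rows_mem {W q α β a : ℕ} (h : a ∈ rows W q α β) (hβ : β ≤ q) : 0 < a ∧ a ≤ q ∧ α < a ∧ a ≤ β ∧ a.Coprime q := by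
  unfold rows at h
  rw [mem_filter, mem_Ioc] at h
  exact ⟨by omega, by omega, h.1.1, h.1.2, h.2.2⟩

theorem Dat.many {x q α β k : ℕ} {P : Finset ℕ} {Er : ℝ} (D : Dat x q α β k P Er) (hk : k % 2 = 0) :
    (((β : ℝ) - α) / (∏ p ∈ P, p : ℕ)) * F (fun p => 1 / (p : ℝ)) P k / (96 * Real.log x) ≤
      (((Ioc α β).filter (fun a => a.Coprime q ∧ (1 + F (fun p => 1 / (p : ℝ)) P k / 8) *
        ((Nat.primeCounting x : ℝ) / (Nat.totient q : ℝ)) ≤ (piA x q a : ℝ))).card : ℝ) := by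
  obtain ⟨hG, hF2, hOm, hc, hg1, hGq, hφW⟩ := D.facts
  have hFp := D.hF0
  have hq0 : (0 : ℝ) < q := by exact_mod_cast (by have := D.hq; omega : 0 < q)
  have hY := D.hY
  have heven := D.even hk
  push_cast at heven
  have h1 := freq_many (rows (∏ p ∈ P, p) q α β) (fun a => (piA x q a : ℝ))
    ((Nat.primeCounting x : ℝ) / (Nat.totient q : ℝ)) (F (fun p => 1 / (p : ℝ)) P k) ((x / q + 1 : ℕ) : ℝ)
    (by positivity) hFp.le (by
      intro a ha
      have := rows_mem ha D.hβ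
      have h2 := piA_le (x := x) this.1 this.2.1
      show ((piA x q a : ℕ) : ℝ) ≤ _
      exact_mod_cast h2) (by positivity) heven
  have h2 : (((rows (∏ p ∈ P, p) q α β).filter (fun a => (1 + F (fun p => 1 / (p : ℝ)) P k / 8) *
        ((Nat.primeCounting x : ℝ) / (Nat.totient q : ℝ)) ≤ (piA x q a : ℝ))).card : ℝ) ≤
      (((Ioc α β).filter (fun a => a.Coprime q ∧ (1 + F (fun p => 1 / (p : ℝ)) P k / 8) *
        ((Nat.primeCounting x : ℝ) / (Nat.totient q : ℝ)) ≤ (piA x q a : ℝ))).card : ℝ) := by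
    apply Nat.cast_le.2
    apply card_le_card
    intro a ha
    rw [mem_filter] at ha ⊢
    have := rows_mem ha.1 D.hβ
    exact ⟨mem_Ioc.2 ⟨this.2.2.1, this.2.2.2.1⟩, this.2.2.2.2, ha.2⟩
  refine le_trans ?_ (h1.trans h2)
  have hR := D.rows_ge
  have hpi := D.pi_ge
  have hOmge := Om_ge D.hq hY
  have hlogx : 0 < Real.log x := by
    apply Real.log_pos
    have := D.qx
    have h3 := D.hq
    exact_mod_cast (by omega : 1 < x)
  have hφ : (0 : ℝ) < (Nat.totient q : ℝ) := by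
    have := mul_pos hc hq0
    rwa [div_mul_cancel₀ _ hq0.ne'] at this
  have hM : ((x / q + 1 : ℕ) : ℝ) ≤ 3 * ((x / q - 1 : ℕ) : ℝ) := by exact_mod_cast (by omega : x / q + 1 ≤ 3 * (x / q - 1))
  have hB0 : (0 : ℝ) < ((x / q + 1 : ℕ) : ℝ) := by positivity
  have hOm2 : ((x / q + 1 : ℕ) : ℝ) / (3 * Real.log x) ≤ Om q (x / q - 1) := by
    refine le_trans ?_ hOmge
    rw [div_le_div_iff₀ (by positivity) hlogx]
    nlinarith
  obtain ⟨G, hGdef⟩ : ∃ G, G = ((β : ℝ) - α) / (∏ p ∈ P, p : ℕ) := ⟨_, rfl⟩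
  obtain ⟨Fv, hFv⟩ : ∃ Fv, Fv = F (fun p => 1 / (p : ℝ)) P k := ⟨_, rfl⟩
  rw [← hGdef] at hG hR ⊢
  rw [← hFv] at hFp ⊢
  rw [div_le_div_iff₀ (by positivity) hB0]
  have h3 : ((x / q + 1 : ℕ) : ℝ) ≤ 3 * Real.log x * Om q (x / q - 1) := by
    rw [div_le_iff₀ (by positivity)] at hOm2
    linarith
  have h4 : G * Fv * Om q (x / q - 1) / 32 ≤ ((rows (∏ p ∈ P, p) q α β).card : ℝ) *
      ((Nat.primeCounting x : ℝ) / (Nat.totient q : ℝ) * (Fv / 8)) := by
    calc G * Fv * Om q (x / q - 1) / 32 = (G * ((Nat.totient q : ℝ) / q) / 2) *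
          (((q : ℝ) * Om q (x / q - 1) / 2) / (Nat.totient q : ℝ) * (Fv / 8)) := by
          field_simp
          norm_num
      _ ≤ _ := by gcongr
  calc G * Fv * ((x / q + 1 : ℕ) : ℝ) ≤ G * Fv * (3 * Real.log x * Om q (x / q - 1)) := by gcongr
    _ = (G * Fv * Om q (x / q - 1) / 32) * (96 * Real.log x) := by ring
    _ ≤ _ := by gcongr

theorem Dat.few {x q α β k : ℕ} {P : Finset ℕ} {Er : ℝ} (D : Dat x q α β k P Er) (hk : k % 2 = 1)
    (hW1 : 1 < ∏ p ∈ P, p) (hWq : (∏ p ∈ P, p) < q) (hx : 1 ≤ Real.log x) :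
    (((β : ℝ) - α) / (∏ p ∈ P, p : ℕ)) * F (fun p => 1 / (p : ℝ)) P k / (96 * Real.log x) ≤
      (((Ioc α β).filter (fun a => a.Coprime q ∧ (piA x q a : ℝ) ≤ (1 - F (fun p => 1 / (p : ℝ)) P k / 8) *
        ((Nat.primeCounting x : ℝ) / (Nat.totient q : ℝ)))).card : ℝ) := by
  obtain ⟨hG, hF2, hOm, hc, hg1, hGq, hφW⟩ := D.facts
  have hFp := D.hF0
  have hq0 : (0 : ℝ) < q := by exact_mod_cast (by have := D.hq; omega : 0 < q)
  have hY := D.hY
  have hodd := D.odd hk hW1 hWq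
  push_cast at hodd
  have hpi := D.pi_ge
  have hφ : (0 : ℝ) < (Nat.totient q : ℝ) := by
    have := mul_pos hc hq0
    rwa [div_mul_cancel₀ _ hq0.ne'] at this
  have hpi0 : (0 : ℝ) < Nat.primeCounting x := lt_of_lt_of_le (by positivity) hpi
  have h1 := freq_few (rows (∏ p ∈ P, p) q α β) (fun a => (piA x q a : ℝ))
    ((Nat.primeCounting x : ℝ) / (Nat.totient q : ℝ)) (F (fun p => 1 / (p : ℝ)) P k)
    (by positivity) hFp.le hF2 (fun a _ => Nat.cast_nonneg _) hodd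
  have h2 : (((rows (∏ p ∈ P, p) q α β).filter (fun a => (piA x q a : ℝ) ≤ (1 - F (fun p => 1 / (p : ℝ)) P k / 8) *
        ((Nat.primeCounting x : ℝ) / (Nat.totient q : ℝ)))).card : ℝ) ≤
      (((Ioc α β).filter (fun a => a.Coprime q ∧ (piA x q a : ℝ) ≤ (1 - F (fun p => 1 / (p : ℝ)) P k / 8) *
        ((Nat.primeCounting x : ℝ) / (Nat.totient q : ℝ)))).card : ℝ) := by
    apply Nat.cast_le.2
    apply card_le_card
    intro a ha
    rw [mem_filter] at ha ⊢
    have := rows_mem ha.1 D.hβ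
    exact ⟨mem_Ioc.2 ⟨this.2.2.1, this.2.2.2.1⟩, this.2.2.2.2, ha.2⟩
  refine le_trans ?_ (h1.trans h2)
  have hR := D.rows_ge
  have hqn : 0 < q := by have := D.hq; omega
  have hc2 := tot_ge hqn
  have hom := omega_le_log hqn
  have hlogqx : Real.log q ≤ Real.log x := by
    apply Real.log_le_log hq0
    exact_mod_cast D.qx
  have hlog2 := Real.log_two_gt_d9
  have hom0 : (0 : ℝ) ≤ q.primeFactors.card := Nat.cast_nonneg _
  have hom2 : (q.primeFactors.card : ℝ) + 1 ≤ 3 * Real.log x := by nlinarith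
  have hc3 : 1 / (3 * Real.log x) ≤ (Nat.totient q : ℝ) / q := by
    refine le_trans ?_ hc2
    apply one_div_le_one_div_of_le (by positivity) hom2
  obtain ⟨G, hGdef⟩ : ∃ G, G = ((β : ℝ) - α) / (∏ p ∈ P, p : ℕ) := ⟨_, rfl⟩
  obtain ⟨Fv, hFv⟩ : ∃ Fv, Fv = F (fun p => 1 / (p : ℝ)) P k := ⟨_, rfl⟩
  rw [← hGdef] at hG hR ⊢
  rw [← hFv] at hFp ⊢
  have hx0 : 0 < Real.log x := by linarith
  calc G * Fv / (96 * Real.log x) ≤ G * Fv / (48 * Real.log x) := by
        apply div_le_div_of_nonneg_left (by positivity) (by positivity)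
        linarith
    _ = (G * (1 / (3 * Real.log x)) / 2) * (Fv / 8) := by field_simp; norm_num
    _ ≤ (G * ((Nat.totient q : ℝ) / q) / 2) * (Fv / 8) := by gcongr
    _ ≤ _ := by gcongr

end Pool.Agent.H527.M
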