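import Mathlib

/-! Asymptotic inequalities. -/

set_option autoImplicit false

namespace Pool.Agent.H527.M

open Filter Asymptotics

theorem as_pow_pow (a b D : ℝ) (hab : a < b) : ∀ᶠ L : ℝ in atTop, D * L ^ a ≤ L ^ b := by
  have h1 : Tendsto (fun L : ℝ => L ^ (b - a)) atTop atTop := tendsto_rpow_atTop (by linarith)
  filter_upwards [h1.eventually_ge_atTop D, eventually_gt_atTop (0 : ℝ)] with L h2 h3
  have h4 : L ^ b = L ^ (b - a) * L ^ a := by rw [← Real.rpow_add h3]; congr 1; ring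
  rw [h4]
  exact mul_le_mul_of_nonneg_right h2 (Real.rpow_nonneg h3.le _)

theorem as_log_pow (c D : ℝ) (hc : 0 < c) (n : ℕ) : ∀ᶠ L : ℝ in atTop, D * (Real.log L) ^ n ≤ L ^ c := by
  have h1 := (isLittleO_log_rpow_rpow_atTop (n : ℝ) hc).bound (show (0 : ℝ) < 1 / (|D| + 1) by positivity)
  filter_upwards [h1, eventually_gt_atTop (1 : ℝ)] with L h2 h3
  have h4 : 0 < Real.log L := Real.log_pos h3
  rw [Real.norm_of_nonneg (Real.rpow_nonneg h4.le _), Real.norm_of_nonneg (Real.rpow_nonneg (by linarith) _),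
    Real.rpow_natCast] at h2
  have h5 : 0 ≤ L ^ c := Real.rpow_nonneg (by linarith) _
  have h6 : |D| * (1 / (|D| + 1)) ≤ 1 := by
    rw [mul_one_div, div_le_one (by positivity)]; linarith
  calc D * Real.log L ^ n ≤ |D| * Real.log L ^ n := by
        apply mul_le_mul_of_nonneg_right (le_abs_self D) (by positivity)
    _ ≤ |D| * (1 / (|D| + 1) * L ^ c) := by gcongr
    _ = (|D| * (1 / (|D| + 1))) * L ^ c := by ring
    _ ≤ 1 * L ^ c := by gcongr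
    _ = L ^ c := one_mul _

theorem as_pow_exp (c D : ℝ) (hc : 0 < c) (n : ℕ) : ∀ᶠ L : ℝ in atTop, D * L ^ n ≤ Real.exp (c * L) := by
  have h1 := (isLittleO_pow_exp_pos_mul_atTop n hc).bound (show (0 : ℝ) < 1 / (|D| + 1) by positivity)
  filter_upwards [h1, eventually_gt_atTop (0 : ℝ)] with L h2 h3
  rw [Real.norm_of_nonneg (by positivity), Real.norm_of_nonneg (Real.exp_pos _).le] at h2
  have h6 : |D| * (1 / (|D| + 1)) ≤ 1 := by
    rw [mul_one_div, div_le_one (by positivity)]; linarith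
  calc D * L ^ n ≤ |D| * L ^ n := by
        apply mul_le_mul_of_nonneg_right (le_abs_self D) (by positivity)
    _ ≤ |D| * (1 / (|D| + 1) * Real.exp (c * L)) := by gcongr
    _ = (|D| * (1 / (|D| + 1))) * Real.exp (c * L) := by ring
    _ ≤ 1 * Real.exp (c * L) := by gcongr
    _ = _ := one_mul _

/-- all the conditions on the size of `L = log x` -/
theorem asym (ε ε1 κ0 C0 l0 x0 : ℝ) (hε : 0 < ε) (hε1 : 0 < ε1) (h1 : ε1 < ε) (h2 : ε1 ≤ 1 / 80) :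
    ∀ᶠ L : ℝ in atTop, 1 ≤ Real.log L ∧ 1 ≤ L ∧ l0 ≤ L ^ (1 / 20 : ℝ) / 2 ∧
      κ0 * Real.log L ^ 2 ≤ L ^ ε1 ∧ 8 * L ^ ε1 ≤ L ∧ Real.log 2 + L ≤ Real.exp (L ^ (1 / 20 : ℝ) / 2 / 48) ∧
      L ^ ε1 * Real.log 4 ≤ L ^ (1 / 20 : ℝ) / 2 / 8 ∧
      C0 * (κ0 * Real.log L * (κ0 * Real.log L + 1)) ≤ L ^ ε1 ∧
      Real.log 500 + 4 * L ^ ε1 + L ^ (1 / 30 : ℝ) ≤ L ^ (1 / 20 : ℝ) / 2 / 4 ∧
      4 * (L + 1) ≤ Real.exp (L / 4) ∧ 4 ≤ L ^ ε ∧ x0 ≤ Real.exp (L / 2) ∧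
      900 * 2 ^ 257 * L ≤ Real.exp (L / 8) ∧ L ^ (1 / 30 : ℝ) + 3 * L ^ ε1 ≤ L / 8 ∧
      3 * L ^ ε1 + Real.log 96 + Real.log L ≤ L ^ ε ∧ 100 * L ≤ Real.exp (L / 4) := by
  have hlog := Real.tendsto_log_atTop
  have t20 : Tendsto (fun L : ℝ => L ^ (1 / 20 : ℝ)) atTop atTop := tendsto_rpow_atTop (by norm_num)
  have tε : Tendsto (fun L : ℝ => L ^ ε) atTop atTop := tendsto_rpow_atTop hε
  have texp : Tendsto (fun L : ℝ => Real.exp (1 / 2 * L)) atTop atTop :=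
    Real.tendsto_exp_atTop.comp (tendsto_id.const_mul_atTop (by norm_num))
  have e6 : ∀ᶠ L : ℝ in atTop, 1 * (L ^ (1 / 20 : ℝ)) ^ 20 ≤ Real.exp (1 / 192 * L ^ (1 / 20 : ℝ)) :=
    t20.eventually (as_pow_exp (1 / 192) 1 (by norm_num) 20)
  have e6' : ∀ᶠ L : ℝ in atTop, 2 ≤ Real.exp (1 / 192 * L ^ (1 / 20 : ℝ)) :=
    (Real.tendsto_exp_atTop.comp (t20.const_mul_atTop (by norm_num : (0 : ℝ) < 1 / 192))).eventually_ge_atTop 2
  filter_upwards [hlog.eventually_ge_atTop 1, eventually_ge_atTop (1 : ℝ), t20.eventually_ge_atTop (2 * l0),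
    as_log_pow ε1 κ0 hε1 2, as_pow_pow ε1 1 8 (by linarith), e6, e6',
    as_pow_pow ε1 (1 / 20) (16 * Real.log 4) (by linarith), as_log_pow ε1 (C0 * κ0 ^ 2 * 2) hε1 2,
    as_log_pow ε1 (C0 * κ0 * 2) hε1 1,
    t20.eventually_ge_atTop (24 * Real.log 500), as_pow_pow ε1 (1 / 20) (24 * 4) (by linarith),
    as_pow_pow (1 / 30) (1 / 20) 24 (by norm_num), as_pow_exp (1 / 4) 8 (by norm_num) 1,
    tε.eventually_ge_atTop 4, texp.eventually_ge_atTop x0, as_pow_exp (1 / 8) (900 * 2 ^ 257) (by norm_num) 1,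
    as_pow_pow (1 / 30) 1 16 (by norm_num), as_pow_pow ε1 1 48 (by linarith),
    as_pow_pow ε1 ε 9 h1, tε.eventually_ge_atTop (3 * Real.log 96), as_log_pow ε 3 hε 1,
    as_pow_exp (1 / 4) 100 (by norm_num) 1] with L a1 a2 a3 a4 a5 a6 a6' a7 a8 a8' a9 a10 a11 a12 a13 a14 a15 a16 a17 a18 a19 a20 a21
  have hL0 : 0 < L := by linarith
  have hpow : (L ^ (1 / 20 : ℝ)) ^ 20 = L := by
    rw [← Real.rpow_natCast, ← Real.rpow_mul hL0.le]
    norm_num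
  rw [hpow, one_mul] at a6
  rw [Real.rpow_one] at a5 a16 a17
  rw [pow_one] at a8' a12 a15 a20 a21
  have e1 : Real.exp (L ^ (1 / 20 : ℝ) / 2 / 48) = Real.exp (1 / 192 * L ^ (1 / 20 : ℝ)) * Real.exp (1 / 192 * L ^ (1 / 20 : ℝ)) := by
    rw [← Real.exp_add]; congr 1; ring
  have e2 : Real.exp (L / 4) = Real.exp (1 / 4 * L) := by congr 1; ring
  have e3 : Real.exp (L / 8) = Real.exp (1 / 8 * L) := by congr 1; ring
  have e4 : Real.exp (L / 2) = Real.exp (1 / 2 * L) := by congr 1; ring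
  rw [e1, e2, e3, e4]
  have hlog2 : Real.log 2 ≤ 1 := by have := Real.log_two_lt_d9; linarith
  refine ⟨a1, a2, by linarith, a4, a5, ?_, by linarith, ?_, by linarith, by linarith, a13, a14, a15, by linarith,
    by linarith, a21⟩
  · have h3 := mul_le_mul a6' a6 (by linarith) (by linarith)
    nlinarith [Real.exp_pos (1 / 192 * L ^ (1 / 20 : ℝ))]
  · have h3 : C0 * (κ0 * Real.log L * (κ0 * Real.log L + 1)) =
        (C0 * κ0 ^ 2 * 2 * Real.log L ^ 2) / 2 + (C0 * κ0 * 2 * Real.log L) / 2 := by ring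
    rw [h3]; linarith

end Pool.Agent.H527.M
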