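import Mathlib
import Pool.Agent.H527.AP.A4
import Pool.Agent.H527.S.S3
import Pool.Agent.H527.M.M7
import Pool.Agent.H527.M.M8

/-! The Maier matrix: the choice of the parameters. -/

set_option autoImplicit false

namespace Pool.Agent.H527.M

open Finset Filter Pool.Agent.H527.AP Pool.Agent.H527.S
open Pool.Agent.X30.MF (E F)

theorem F_empty (x : ℕ → ℝ) (k : ℕ) : F x ∅ k = 0 := by
  unfold F E
  rw [powerset_empty, filter_true_of_mem (by intro s hs; rw [mem_singleton] at hs; rw [hs]; simp)]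
  simp

theorem W_le {a b : ℕ} {S : Finset ℕ} : (∏ p ∈ ((Ioc a b).filter Nat.Prime) \ S, p) ≤ 4 ^ b := by
  refine le_trans ?_ (primorial_le_four_pow b)
  unfold primorial
  apply prod_le_prod_of_subset_of_one_le'
  · intro p hp
    rw [Finset.mem_sdiff, mem_filter, mem_Ioc] at hp
    rw [mem_filter, mem_range]
    exact ⟨by omega, hp.1.2⟩
  · intro p hp _
    rw [mem_filter] at hp
    exact hp.2.one_lt.le

theorem not_dvd_W {a b fs : ℕ} {S : Finset ℕ} (hfs : fs = 0 ∨ 1 < fs) (hS : fs.minFac ∈ S) :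
    fs = 0 ∨ ¬ fs ∣ ∏ p ∈ ((Ioc a b).filter Nat.Prime) \ S, p := by
  rcases hfs with h | h
  · exact Or.inl h
  · right
    intro hd
    have h1 : fs.minFac.Prime := Nat.minFac_prime (by omega)
    have h2 : fs.minFac ∣ ∏ p ∈ ((Ioc a b).filter Nat.Prime) \ S, p := (Nat.minFac_dvd fs).trans hd
    rw [Prime.dvd_finsetProd_iff h1.prime] at h2
    obtain ⟨p, hp, hpd⟩ := h2
    rw [Finset.mem_sdiff, mem_filter] at hp
    have h3 := (Nat.prime_dvd_prime_iff_eq h1 hp.1.2).1 hpd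
    rw [h3] at hS
    exact hp.2 hS

theorem tot_ge_log {q : ℕ} {L : ℝ} (hq : 0 < q) (hL : 1 ≤ L) (h : Real.log q ≤ L) :
    1 / (3 * L) ≤ (Nat.totient q : ℝ) / q := by
  refine le_trans ?_ (tot_ge hq)
  have hom := omega_le_log hq
  have hom0 : (0 : ℝ) ≤ q.primeFactors.card := Nat.cast_nonneg _
  have hlog2 := Real.log_two_gt_d9
  apply one_div_le_one_div_of_le (by positivity)
  nlinarith

/-- numerical part -/
theorem num_part (ε ε1 κ0 C0 L lx lq Fv G Wv bma om : ℝ) (hL : 1 ≤ L) (hqv : 0 < lq) (hxq : lq ≤ lx)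
    (hlx : lx = Real.exp L) (hlq : Real.exp (L - L ^ ε1) ≤ lq) (h5 : 8 * L ^ ε1 ≤ L)
    (hFv : Real.exp (-(L ^ ε1)) ≤ Fv) (hF0 : 0 < Fv) (hW0 : 0 < Wv) (hWv : Wv ≤ Real.exp (3 / 2 * L ^ ε1))
    (hb : lq * Real.exp (-(L ^ (1 / 30 : ℝ))) ≤ bma) (hG : G = bma / Wv)
    (a9 : Real.log 500 + 4 * L ^ ε1 + L ^ (1 / 30 : ℝ) ≤ L ^ (1 / 20 : ℝ) / 2 / 4) (a10 : 4 * (L + 1) ≤ Real.exp (L / 4))
    (a15 : 900 * 2 ^ 257 * L ≤ Real.exp (L / 8)) (a16 : L ^ (1 / 30 : ℝ) + 3 * L ^ ε1 ≤ L / 8)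
    (a18 : 3 * L ^ ε1 + Real.log 96 + Real.log L ≤ L ^ ε) (a21 : 100 * L ≤ Real.exp (L / 4))
    (hom : om ^ 8 ≤ 256 ^ 257 * lq) (hom0 : 0 ≤ om) (h20 : L ^ (1 / 20 : ℝ) ≤ L) :
    0 < bma ∧ 2 * (2 * lx * Real.exp (-(L ^ (1 / 20 : ℝ) / 2 / 4))) + 2 * Real.sqrt (2 * lx) * Real.log (2 * lx) ≤ Fv / 100 * G ∧
    3 * om ≤ Fv / 100 * (G * (1 / (3 * L))) ∧ 100 * L ≤ Fv * G ∧
    bma * Real.exp (-(L ^ ε)) ≤ G * Fv / (96 * L) := by
  have hL0 : 0 < L := by linarith
  have hbma : 0 < bma := lt_of_lt_of_le (by positivity) hb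
  have hG0 : 0 < G := by rw [hG]; positivity
  -- the lower bound for `Fv * G`
  have hΓ : Real.exp (L - 4 * L ^ ε1 - L ^ (1 / 30 : ℝ)) ≤ Fv * G := by
    have e1 : Real.exp (L - L ^ ε1) * Real.exp (-(L ^ (1 / 30 : ℝ))) ≤ bma :=
      le_trans (by gcongr) hb
    have e2 : Real.exp (L - L ^ ε1) * Real.exp (-(L ^ (1 / 30 : ℝ))) / Real.exp (3 / 2 * L ^ ε1) ≤ G := by
      rw [hG]; gcongr
    have hLe : 0 ≤ L ^ ε1 := Real.rpow_nonneg hL0.le _
    calc Real.exp (L - 4 * L ^ ε1 - L ^ (1 / 30 : ℝ)) ≤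
          Real.exp (-(L ^ ε1)) * (Real.exp (L - L ^ ε1) * Real.exp (-(L ^ (1 / 30 : ℝ))) / Real.exp (3 / 2 * L ^ ε1)) := by
          rw [← Real.exp_add, ← Real.exp_sub, ← Real.exp_add]
          apply Real.exp_le_exp.2
          linarith
      _ ≤ _ := by gcongr
  refine ⟨hbma, ?_, ?_, ?_, ?_⟩
  · -- the error term
    have e1 : Real.log (2 * lx) ≤ L + 1 := by
      rw [hlx, Real.log_mul (by norm_num) (Real.exp_pos _).ne', Real.log_exp]
      have := Real.log_two_lt_d9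
      linarith
    have e2 : Real.sqrt (2 * lx) ≤ 2 * Real.exp (L / 2) := by
      apply Real.sqrt_le_iff.2
      refine ⟨by positivity, ?_⟩
      have : (2 * Real.exp (L / 2)) ^ 2 = 4 * lx := by
        rw [mul_pow, ← Real.exp_nat_mul, hlx]; norm_num; ring
      rw [this]
      have : 0 < lx := by rw [hlx]; exact Real.exp_pos _
      linarith
    have e3 : 2 * Real.sqrt (2 * lx) * Real.log (2 * lx) ≤ lx * Real.exp (-(L ^ (1 / 20 : ℝ) / 2 / 4)) := by
      have e0 : 0 ≤ Real.log (2 * lx) := by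
        apply Real.log_nonneg
        have : 1 ≤ Real.exp L := Real.one_le_exp hL0.le
        rw [hlx]; linarith
      calc 2 * Real.sqrt (2 * lx) * Real.log (2 * lx) ≤ 2 * (2 * Real.exp (L / 2)) * (L + 1) := by gcongr
        _ = Real.exp (L / 2) * (4 * (L + 1)) := by ring
        _ ≤ Real.exp (L / 2) * Real.exp (L / 4) := by gcongr
        _ ≤ lx * Real.exp (-(L ^ (1 / 20 : ℝ) / 2 / 4)) := by
            rw [hlx, ← Real.exp_add, ← Real.exp_add]
            apply Real.exp_le_exp.2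
            linarith
    have e4 : 2 * (2 * lx * Real.exp (-(L ^ (1 / 20 : ℝ) / 2 / 4))) + 2 * Real.sqrt (2 * lx) * Real.log (2 * lx) ≤
        5 * Real.exp (L - L ^ (1 / 20 : ℝ) / 2 / 4) := by
      have : lx * Real.exp (-(L ^ (1 / 20 : ℝ) / 2 / 4)) = Real.exp (L - L ^ (1 / 20 : ℝ) / 2 / 4) := by
        rw [hlx, ← Real.exp_add]; congr 1
      rw [this] at e3
      linarith
    refine e4.trans ?_
    have e5 : 500 * Real.exp (L - L ^ (1 / 20 : ℝ) / 2 / 4) ≤ Real.exp (L - 4 * L ^ ε1 - L ^ (1 / 30 : ℝ)) := by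
      have : (500 : ℝ) = Real.exp (Real.log 500) := by rw [Real.exp_log (by norm_num)]
      rw [this, ← Real.exp_add]
      apply Real.exp_le_exp.2
      linarith
    linarith
  · have e1 : om ≤ 2 ^ 257 * Real.exp (L / 8) := by
      have : om ^ 8 ≤ (2 ^ 257 * Real.exp (L / 8)) ^ 8 := by
        refine hom.trans ?_
        rw [mul_pow, ← Real.exp_nat_mul]
        have e2 : (((8 : ℕ) : ℝ) * (L / 8)) = L := by push_cast; ring
        rw [e2, ← hlx, ← pow_mul]
        have e3 : (256 : ℝ) ^ 257 = 2 ^ (257 * 8) := by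
          rw [show (256 : ℝ) = 2 ^ 8 by norm_num, ← pow_mul]
        rw [e3]
        gcongr
      exact le_of_pow_le_pow_left₀ (by norm_num) (by positivity) this
    have e2 : Real.exp (L / 4) ≤ Fv * G := by
      refine le_trans ?_ hΓ
      apply Real.exp_le_exp.2
      linarith
    have e3 : Real.exp (L / 4) = Real.exp (L / 8) * Real.exp (L / 8) := by rw [← Real.exp_add]; congr 1; ring
    have e4 : Fv / 100 * (G * (1 / (3 * L))) = (Fv * G) / (300 * L) := by field_simp; norm_num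
    rw [e4, le_div_iff₀ (by positivity)]
    calc 3 * om * (300 * L) ≤ 3 * (2 ^ 257 * Real.exp (L / 8)) * (300 * L) := by gcongr
      _ = (900 * 2 ^ 257 * L) * Real.exp (L / 8) := by ring
      _ ≤ Real.exp (L / 8) * Real.exp (L / 8) := by gcongr
      _ ≤ _ := by rw [← e3]; exact e2
  · refine a21.trans (le_trans ?_ hΓ)
    apply Real.exp_le_exp.2
    linarith
  · have e1 : bma * Real.exp (-(L ^ ε)) ≤ bma * (Real.exp (-(L ^ ε1)) / Real.exp (3 / 2 * L ^ ε1) / (96 * L)) := by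
      apply mul_le_mul_of_nonneg_left _ hbma.le
      have e2 : (96 * L) = Real.exp (Real.log 96 + Real.log L) := by
        rw [Real.exp_add, Real.exp_log (by norm_num), Real.exp_log hL0]
      rw [e2, ← Real.exp_sub, ← Real.exp_sub]
      apply Real.exp_le_exp.2
      have hLe : 0 ≤ L ^ ε1 := Real.rpow_nonneg hL0.le _
      linarith
    refine e1.trans ?_
    rw [hG]
    calc bma * (Real.exp (-(L ^ ε1)) / Real.exp (3 / 2 * L ^ ε1) / (96 * L)) ≤ bma * (Fv / Wv / (96 * L)) := by gcongr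
      _ = bma / Wv * Fv / (96 * L) := by ring

set_option maxHeartbeats 4000000 in
theorem exists_dat (ε : ℝ) (hε : 0 < ε) : ∃ η κ C : ℝ, 0 < η ∧ 0 < κ ∧ 0 < C ∧ ∀ᶠ x : ℕ in atTop, ∀ q α β : ℕ,
    0 < q → (Real.log x) ^ ε ≤ (x : ℝ) / q → (x : ℝ) / q ≤ Real.exp (κ * (Real.log (Real.log x)) ^ 2) →
    ((q.primeFactors.filter (fun p : ℕ => (p : ℝ) ≤ (Real.log x) ^ ε)).card : ℝ) ≤ (Real.log x) ^ η → α ≤ β → β ≤ q →
    (q : ℝ) * Real.exp (-(Real.log x) ^ (1 / 30 : ℝ)) ≤ (β : ℝ) - α → ∀ e : ℕ, e < 2 →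
    ∃ k : ℕ, ∃ P : Finset ℕ, ∃ Er : ℝ, k % 2 = e ∧ Dat x q α β k P Er ∧ 1 ≤ Real.log x ∧
      Real.exp (-(C * (Real.log ((x : ℝ) / q) / Real.log (Real.log x) *
        Real.log (Real.log ((x : ℝ) / q) / Real.log (Real.log x) + 2)))) ≤ F (fun p => 1 / (p : ℝ)) P k / 8 ∧
      1 < ∏ p ∈ P, p ∧ (∏ p ∈ P, p) < q ∧
      ((β : ℝ) - α) * Real.exp (-(Real.log x) ^ ε) ≤
        (((β : ℝ) - α) / (∏ p ∈ P, p : ℕ)) * F (fun p => 1 / (p : ℝ)) P k / (96 * Real.log x) := by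
  obtain ⟨ε1, hε1⟩ : ∃ ε1 : ℝ, ε1 = min ε (1 / 40) / 2 := ⟨_, rfl⟩
  have hm1 : min ε (1 / 40) ≤ ε := min_le_left _ _
  have hm2 : min ε (1 / 40) ≤ 1 / 40 := min_le_right _ _
  have hm0 : 0 < min ε (1 / 40) := lt_min hε (by norm_num)
  have hε10 : 0 < ε1 := by rw [hε1]; linarith
  have hε1ε : ε1 < ε := by rw [hε1]; linarith
  have hε1' : ε1 ≤ 1 / 80 := by rw [hε1]; linarith
  obtain ⟨α0, κ0, C0, hα0, hκ0, hC0, hwin⟩ := window ε ε1 (1 / 8000) hε hε10 (by norm_num)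
  obtain ⟨l0, hl04, hpap⟩ := pap 1
  obtain ⟨x0, hx04, hpi⟩ := pi_le
  have hlog2 := Real.log_two_gt_d9
  have hlog2' := Real.log_two_lt_d9
  have hlog8 : 0 < Real.log 8 := Real.log_pos (by norm_num)
  have tL : Tendsto (fun x : ℕ => Real.log (x : ℝ)) atTop atTop :=
    Real.tendsto_log_atTop.comp tendsto_natCast_atTop_atTop
  refine ⟨α0 / 2, κ0, C0 + Real.log 8 / (ε * Real.log 2), by positivity, hκ0, by positivity, ?_⟩
  filter_upwards [tL.eventually hwin, tL.eventually (asym ε ε1 κ0 C0 l0 x0 hε hε10 hε1ε hε1'),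
    eventually_ge_atTop 1] with x hw has hx1
  intro q α β hq hyl hyu homq hαβ hβ hbma e he
  obtain ⟨L, hL⟩ : ∃ L : ℝ, L = Real.log x := ⟨_, rfl⟩
  rw [← hL] at hw has hyl hyu homq hbma ⊢
  obtain ⟨b1, b2, b3, b4, b5, b6, b7, b8, b9, b10, b11, b12, b13, b14, b15, b16⟩ := has
  have hL0 : 0 < L := by linarith
  have hlL0 : 0 < Real.log L := by linarith
  have hx0r : (0 : ℝ) < x := by exact_mod_cast hx1
  have hq0r : (0 : ℝ) < q := by exact_mod_cast hq
  have hxexp : (x : ℝ) = Real.exp L := by rw [hL, Real.exp_log hx0r]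
  obtain ⟨y, hy⟩ : ∃ y : ℝ, y = (x : ℝ) / q := ⟨_, rfl⟩
  rw [← hy] at hyl hyu ⊢
  have hy4 : 4 ≤ y := b11.trans hyl
  have hy0 : 0 < y := by linarith
  obtain ⟨u, hu⟩ : ∃ u : ℝ, u = Real.log y / Real.log L := ⟨_, rfl⟩
  rw [← hu]
  have hLu : L ^ u = y := by
    rw [Real.rpow_def_of_pos hL0, hu, mul_div_cancel₀ _ hlL0.ne', Real.exp_log hy0]
  have huε : ε ≤ u := by
    rw [hu, le_div_iff₀ hlL0]
    have h1 := Real.log_le_log (Real.rpow_pos_of_pos hL0 ε) hyl
    rwa [Real.log_rpow hL0] at h1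
  have hlogy : Real.log y ≤ κ0 * Real.log L ^ 2 := by
    have h1 := Real.log_le_log hy0 hyu
    rwa [Real.log_exp] at h1
  have huκ : u ≤ κ0 * Real.log L := by
    rw [hu, div_le_iff₀ hlL0]
    calc Real.log y ≤ κ0 * Real.log L ^ 2 := hlogy
      _ = κ0 * Real.log L * Real.log L := by ring
  have hu0 : 0 < u := by linarith
  obtain ⟨k, a, b, hk1, hke, hab, hbL, haL, hS⟩ := hw u huε huκ e he
  -- the exceptional modulus
  obtain ⟨l, hl⟩ : ∃ l : ℝ, l = L ^ (1 / 20 : ℝ) / 2 := ⟨_, rfl⟩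
  obtain ⟨fs, hfs, hAP⟩ := hpap l (by rw [hl]; exact b3)
  obtain ⟨S, hSdef⟩ : ∃ S : Finset ℕ, S = (q.primeFactors.filter (fun p : ℕ => (p : ℝ) ≤ L ^ ε)) ∪ {fs.minFac} := ⟨_, rfl⟩
  have hScard : (S.card : ℝ) ≤ L ^ (α0 / 2) + 1 := by
    have h1 : S.card ≤ (q.primeFactors.filter (fun p : ℕ => (p : ℝ) ≤ L ^ ε)).card + 1 := by
      rw [hSdef]
      refine (card_union_le _ _).trans ?_
      rw [card_singleton]
    have h2 : (S.card : ℝ) ≤ ((q.primeFactors.filter (fun p : ℕ => (p : ℝ) ≤ L ^ ε)).card : ℝ) + 1 := by exact_mod_cast h1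
    linarith
  obtain ⟨hwk, hwF, hwN, hwg⟩ := hS S hScard
  obtain ⟨P, hP⟩ : ∃ P : Finset ℕ, P = ((Ioc a b).filter Nat.Prime) \ S := ⟨_, rfl⟩
  have hPprime : ∀ p ∈ P, p.Prime := by
    intro p hp
    rw [hP, Finset.mem_sdiff, mem_filter] at hp
    exact hp.1.2
  have hbLε : (b : ℝ) ≤ L ^ ε := hbL.trans (Real.rpow_le_rpow_of_exponent_le b2 hε1ε.le)
  have hPq : ∀ p ∈ P, ¬ p ∣ q := by
    intro p hp hd
    rw [hP, Finset.mem_sdiff, mem_filter, mem_Ioc] at hp
    apply hp.2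
    rw [hSdef, mem_union, mem_filter]
    left
    refine ⟨Nat.mem_primeFactors.2 ⟨hp.1.2, hd, hq.ne'⟩, ?_⟩
    have : (p : ℝ) ≤ b := by exact_mod_cast hp.1.1.2
    linarith
  have hWle : (∏ p ∈ P, p) ≤ 4 ^ b := by rw [hP]; exact W_le
  have hWpos : 0 < ∏ p ∈ P, p := Finset.prod_pos fun p hp => (hPprime p hp).pos
  have hfsW : fs = 0 ∨ ¬ fs ∣ ∏ p ∈ P, p := by
    rw [hP]
    apply not_dvd_W hfs
    rw [hSdef, mem_union, mem_singleton]
    exact Or.inr rfl
  have hlog4 : Real.log 4 = 2 * Real.log 2 := by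
    rw [show (4 : ℝ) = 2 ^ 2 by norm_num, Real.log_pow]; push_cast; ring
  have hLe1 : 0 ≤ L ^ ε1 := Real.rpow_nonneg hL0.le _
  have hWlog : Real.log ((∏ p ∈ P, p : ℕ) : ℝ) ≤ L ^ ε1 * Real.log 4 := by
    have h1 : ((∏ p ∈ P, p : ℕ) : ℝ) ≤ (4 : ℝ) ^ b := by exact_mod_cast hWle
    have h2 := Real.log_le_log (by exact_mod_cast hWpos) h1
    rw [Real.log_pow] at h2
    have h3 : (b : ℝ) * Real.log 4 ≤ L ^ ε1 * Real.log 4 := by
      apply mul_le_mul_of_nonneg_right hbL; rw [hlog4]; linarith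
    linarith
  have hWexp : ((∏ p ∈ P, p : ℕ) : ℝ) ≤ Real.exp (3 / 2 * L ^ ε1) := by
    have hWr : (0 : ℝ) < ((∏ p ∈ P, p : ℕ) : ℝ) := by exact_mod_cast hWpos
    rw [← Real.exp_log hWr]
    apply Real.exp_le_exp.2
    rw [hlog4] at hWlog
    nlinarith
  rw [← hP] at hwk hwF hwN hwg
  -- sizes
  have hqexp : Real.exp (L - L ^ ε1) ≤ q := by
    have h1 : (q : ℝ) = Real.exp (L - Real.log y) := by
      rw [Real.exp_sub, Real.exp_log hy0, ← hxexp, hy]
      field_simp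
    rw [h1]
    apply Real.exp_le_exp.2
    linarith
  have hq2' : Real.exp (L / 2) ≤ q := le_trans (Real.exp_le_exp.2 (by linarith)) hqexp
  have hlogq : L / 2 ≤ Real.log q := by
    have := Real.log_le_log (Real.exp_pos _) hq2'
    rwa [Real.log_exp] at this
  have hq2 : 2 ≤ q := by
    have h1 : x0 ≤ q := b12.trans hq2'
    have h2 : (4 : ℝ) ≤ q := hx04.trans h1
    have h3 : 4 ≤ q := by exact_mod_cast h2
    omega
  have hY4 : 4 ≤ x / q := by
    rw [Nat.le_div_iff_mul_le hq]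
    rw [hy, le_div_iff₀ hq0r] at hy4
    exact_mod_cast hy4
  have hqx : q ≤ x := by
    have := Nat.div_mul_le_self x q
    nlinarith
  have hpow : (L ^ (1 / 20 : ℝ)) ^ 20 = L := by
    rw [← Real.rpow_natCast, ← Real.rpow_mul hL0.le]
    norm_num
  have hl20 : 8 * l ^ 20 ≤ L / 2 := by
    rw [hl, div_pow, hpow]
    norm_num
    linarith
  have hEr : ∀ m : ℕ, 1 ≤ m → Real.log m ≤ l / 8 → (fs = 0 ∨ ¬ fs ∣ m) → Hpsi m q x (2 * x * Real.exp (-(l / 4))) := by
    intro m hm hml hmf V hqV hVx c hc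
    have hVr : (q : ℝ) ≤ V := by exact_mod_cast hqV
    have hV2 : (V : ℝ) ≤ 2 * x := by exact_mod_cast hVx
    have hV0 : (0 : ℝ) < V := by linarith
    have h1 : 8 * l ^ 20 ≤ Real.log V := by
      have := Real.log_le_log hq0r hVr
      linarith
    have h2 : Real.log V ≤ Real.exp (l / 48) := by
      have h3 := Real.log_le_log hV0 hV2
      rw [Real.log_mul (by norm_num) hx0r.ne', ← hL] at h3
      rw [hl]
      linarith
    refine (hAP V hV0 h1 h2 m hm hml hmf c hc).trans ?_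
    gcongr
  have hFlow : Real.exp (-(L ^ ε1)) ≤ F (fun p => 1 / (p : ℝ)) P k := by
    refine le_trans (Real.exp_le_exp.2 ?_) hwF
    have h1 : Real.log (u + 2) ≤ κ0 * Real.log L + 1 := by
      have h2 := Real.log_le_sub_one_of_pos (show 0 < u + 2 by linarith)
      linarith
    have h3 : C0 * (u * Real.log (u + 2)) ≤ C0 * (κ0 * Real.log L * (κ0 * Real.log L + 1)) := by
      have h4 : 0 ≤ Real.log (u + 2) := Real.log_nonneg (by linarith)
      gcongr
    linarith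
  obtain ⟨Fv, hFv⟩ : ∃ Fv, Fv = F (fun p => 1 / (p : ℝ)) P k := ⟨_, rfl⟩
  rw [← hFv] at hFlow hwF hwN
  have hFv0 : 0 < Fv := lt_of_lt_of_le (Real.exp_pos _) hFlow
  have h20 : L ^ (1 / 20 : ℝ) ≤ L := by
    calc L ^ (1 / 20 : ℝ) ≤ L ^ (1 : ℝ) := Real.rpow_le_rpow_of_exponent_le b2 (by norm_num)
      _ = L := Real.rpow_one L
  have hom8 := pow_omega_le hq
  have hom8r : ((2 : ℝ) ^ q.primeFactors.card) ^ 8 ≤ 256 ^ 257 * (q : ℝ) := by exact_mod_cast hom8
  have hxq' : (q : ℝ) ≤ x := by exact_mod_cast hqx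
  obtain ⟨c1, c2, c3, c4, c5⟩ := num_part ε ε1 κ0 C0 L x q Fv (((β : ℝ) - α) / (∏ p ∈ P, p : ℕ))
    ((∏ p ∈ P, p : ℕ) : ℝ) ((β : ℝ) - α) ((2 : ℝ) ^ q.primeFactors.card) b2 hq0r hxq' hxexp hqexp b5 hFlow hFv0
    (by exact_mod_cast hWpos) hWexp hbma rfl b9 b10 b13 b14 b15 b16 hom8r (by positivity) h20
  have hG0 : 0 < ((β : ℝ) - α) / (∏ p ∈ P, p : ℕ) := by
    have : (0 : ℝ) < ((∏ p ∈ P, p : ℕ) : ℝ) := by exact_mod_cast hWpos
    positivity
  have hlogqL : Real.log q ≤ L := by rw [hL]; exact Real.log_le_log hq0r hxq'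
  -- the bound for the totient
  have hc3 : 1 / (3 * L) ≤ (Nat.totient q : ℝ) / q := tot_ge_log hq b2 hlogqL
  -- `Om`
  have hM : y / 2 ≤ ((x / q - 1 : ℕ) : ℝ) := by
    have h1 : y < ((x / q : ℕ) : ℝ) + 1 := by
      rw [hy, div_lt_iff₀ hq0r]
      have := Nat.lt_div_mul_add (a := x) hq
      have h6 : x < (x / q + 1) * q := by rw [add_mul, one_mul]; exact this
      exact_mod_cast h6
    have h2 : ((x / q - 1 : ℕ) : ℝ) = ((x / q : ℕ) : ℝ) - 1 := by
      rw [Nat.cast_sub (by omega)]; simp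
    rw [h2]; linarith
  have hOm : y / 2 / L ≤ Om q (x / q - 1) := by
    have := Om_ge (x := x) (q := q) hq2 (by omega)
    rw [← hL] at this
    refine le_trans ?_ this
    gcongr
  have hw1 : w q 1 ≤ 2 / L := by
    unfold w
    rw [Nat.cast_one, one_mul, div_le_div_iff₀ (by linarith) hL0]
    linarith
  have hN1 : (1 : ℝ) ≤ (Sk P k).card := by
    have : 0 < (Sk P k).card := by
      rw [card_pos]
      exact ⟨∅, by unfold Sk; simp⟩
    exact_mod_cast this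
  rw [hLu] at hwN
  refine ⟨k, P, 2 * x * Real.exp (-(l / 4)), hke, ?_, b2, ?_, ?_, ?_, by rw [← hFv]; exact c5⟩
  · refine ⟨hPprime, hPq, hq2, by omega, hαβ, hβ, by positivity, ?_, ?_, ?_, hwg, ?_, ?_, ?_, ?_, ?_, ?_⟩
    · apply hEr _ hWpos _ hfsW
      rw [hl]
      linarith
    · apply hEr 1 le_rfl _ _
      · rw [Nat.cast_one, Real.log_one, hl]; positivity
      · rcases hfs with h | h
        · exact Or.inl h
        · right
          intro hd
          have := Nat.le_of_dvd one_pos hd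
          omega
    · rw [← hFv]; exact hFv0
    · intro s hs hc
      have := hwk s hs hc
      rwa [hLu, hy] at this
    · rw [← hFv]
      have h1 : ((Sk P k).card + 10) * w q 1 ≤ (11 * (1 / 8000 * (y * Fv))) * (2 / L) := by
        apply mul_le_mul _ hw1 (w_nonneg q 1) (by positivity)
        linarith
      refine h1.trans ?_
      calc (11 * (1 / 8000 * (y * Fv))) * (2 / L) = 22 / 8000 * (y * Fv / L) := by ring
        _ ≤ 1 / 200 * (y * Fv / L) := by
            apply mul_le_mul_of_nonneg_right (by norm_num) (by positivity)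
        _ = Fv / 100 * (y / 2 / L) := by ring
        _ ≤ _ := by gcongr
    · rw [← hFv]
      have h1 : 2 * (2 * x * Real.exp (-(l / 4))) + R2 x =
          2 * (2 * x * Real.exp (-(L ^ (1 / 20 : ℝ) / 2 / 4))) + 2 * Real.sqrt (2 * x) * Real.log (2 * x) := by
        unfold R2
        rw [hl]
        push_cast
        ring
      rw [h1]
      exact c2
    · rw [← hFv]
      refine c3.trans ?_
      gcongr
    · unfold w
      rw [Nat.cast_one, one_mul, mul_one_div]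
      have h1 : x0 ≤ (q : ℝ) := b12.trans hq2'
      have h2 := hpi q h1
      rwa [Nat.floor_natCast] at h2
    · rw [← hFv]
      have h1 : 2 / L ≤ y / 2 / L := by
        apply div_le_div_of_nonneg_right _ hL0.le; linarith
      have h2 : 2 / L ≤ Om q (x / q - 1) := h1.trans hOm
      calc (1 : ℝ) ≤ 2 := by norm_num
        _ = (100 * L) / 100 * (2 / L) := by field_simp
        _ ≤ (Fv * (((β : ℝ) - α) / (∏ p ∈ P, p : ℕ))) / 100 * Om q (x / q - 1) := by gcongr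
        _ = _ := by ring
  · rw [← hFv]
    have h1 : Real.exp (-((C0 + Real.log 8 / (ε * Real.log 2)) * (u * Real.log (u + 2)))) ≤
        Real.exp (-(C0 * (u * Real.log (u + 2)))) / 8 := by
      have h2 : Real.log 8 ≤ Real.log 8 / (ε * Real.log 2) * (u * Real.log (u + 2)) := by
        have h3 : ε * Real.log 2 ≤ u * Real.log (u + 2) := by
          have h4 : Real.log 2 ≤ Real.log (u + 2) := Real.log_le_log (by norm_num) (by linarith)
          apply mul_le_mul huε h4 (by linarith) hu0.le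
        rw [div_mul_eq_mul_div, le_div_iff₀ (by positivity)]
        gcongr
      have h5 : Real.exp (-(C0 * (u * Real.log (u + 2)))) / 8 = Real.exp (-(C0 * (u * Real.log (u + 2))) - Real.log 8) := by
        rw [Real.exp_sub, Real.exp_log (by norm_num)]
      rw [h5]
      apply Real.exp_le_exp.2
      linarith
    linarith
  · have hne : P.Nonempty := by
      rw [Finset.nonempty_iff_ne_empty]
      intro h
      rw [h, F_empty] at hFv
      linarith
    obtain ⟨p, hp⟩ := hne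
    have h1 : p ∣ ∏ p ∈ P, p := dvd_prod_of_mem _ hp
    have h2 := Nat.le_of_dvd hWpos h1
    have h3 := (hPprime p hp).one_lt
    omega
  · have h1 : ((∏ p ∈ P, p : ℕ) : ℝ) < q := by
      refine lt_of_le_of_lt hWexp (lt_of_lt_of_le ?_ hqexp)
      apply Real.exp_lt_exp.2
      linarith
    exact_mod_cast h1

end Pool.Agent.H527.M
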