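import Mathlib
import Pool.Agent.H527.M.M9

/-! The irregular classes: final form, and the sum over the moduli. -/

set_option autoImplicit false

namespace Pool.Agent.H527.M

open Finset Filter Pool.Agent.H527.AP Pool.Agent.H527.S
open Pool.Agent.X30.MF (E F)

/-- the size of the deviation -/
noncomputable def dl (C : ℝ) (x q : ℕ) : ℝ :=
  Real.exp (-(C * (Real.log ((x : ℝ) / q) / Real.log (Real.log x) *
        Real.log (Real.log ((x : ℝ) / q) / Real.log (Real.log x) + 2))))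

theorem irregular (ε : ℝ) (hε : 0 < ε) : ∃ η κ C : ℝ, 0 < η ∧ 0 < κ ∧ 0 < C ∧ ∀ᶠ x : ℕ in atTop, ∀ q α β : ℕ,
    0 < q → (Real.log x) ^ ε ≤ (x : ℝ) / q → (x : ℝ) / q ≤ Real.exp (κ * (Real.log (Real.log x)) ^ 2) →
    ((q.primeFactors.filter (fun p : ℕ => (p : ℝ) ≤ (Real.log x) ^ ε)).card : ℝ) ≤ (Real.log x) ^ η → α ≤ β → β ≤ q →
    (q : ℝ) * Real.exp (-(Real.log x) ^ (1 / 30 : ℝ)) ≤ (β : ℝ) - α →
    ((β : ℝ) - α) * Real.exp (-(Real.log x) ^ ε) ≤ (((Ioc α β).filter (fun a => a.Coprime q ∧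
      (1 + dl C x q) * ((Nat.primeCounting x : ℝ) / (Nat.totient q : ℝ)) ≤ (piA x q a : ℝ))).card : ℝ) ∧
    ((β : ℝ) - α) * Real.exp (-(Real.log x) ^ ε) ≤ (((Ioc α β).filter (fun a => a.Coprime q ∧
      (piA x q a : ℝ) ≤ (1 - dl C x q) * ((Nat.primeCounting x : ℝ) / (Nat.totient q : ℝ)))).card : ℝ) := by
  obtain ⟨η, κ, C, hη, hκ, hC, hmain⟩ := exists_dat ε hε
  refine ⟨η, κ, C, hη, hκ, hC, ?_⟩
  filter_upwards [hmain] with x hx q α β hq h1 h2 h3 h4 h5 h6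
  constructor
  · obtain ⟨k, P, Er, hk, D, hL, hF, hW1, hWq, hcount⟩ := hx q α β hq h1 h2 h3 h4 h5 h6 0 (by norm_num)
    refine hcount.trans ((D.many hk).trans ?_)
    apply Nat.cast_le.2
    apply card_le_card
    intro a ha
    rw [mem_filter] at ha ⊢
    refine ⟨ha.1, ha.2.1, le_trans ?_ ha.2.2⟩
    unfold dl
    gcongr
  · obtain ⟨k, P, Er, hk, D, hL, hF, hW1, hWq, hcount⟩ := hx q α β hq h1 h2 h3 h4 h5 h6 1 (by norm_num)
    refine hcount.trans ((D.few hk hW1 hWq hL).trans ?_)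
    apply Nat.cast_le.2
    apply card_le_card
    intro a ha
    rw [mem_filter] at ha ⊢
    refine ⟨ha.1, ha.2.1, ha.2.2.trans ?_⟩
    unfold dl
    gcongr

/-- the number of multiples -/
theorem card_mult_le (p Q : ℕ) (hp : 0 < p) : (((Ioc (Q / 2) Q).filter (fun q => p ∣ q)).card : ℝ) ≤ (Q : ℝ) / p := by
  have h1 : ((Ioc (Q / 2) Q).filter (fun q => p ∣ q)) ⊆ (Ioc 0 Q).filter (fun q => p ∣ q) := by
    apply filter_subset_filter
    intro q hq
    rw [mem_Ioc] at hq ⊢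
    omega
  have h2 := card_le_card h1
  rw [Nat.Ioc_filter_dvd_card_eq_div] at h2
  have h3 : ((Q / p : ℕ) : ℝ) ≤ (Q : ℝ) / p := Nat.cast_div_le
  have h4 : (((Ioc (Q / 2) Q).filter (fun q => p ∣ q)).card : ℝ) ≤ ((Q / p : ℕ) : ℝ) := by exact_mod_cast h2
  linarith

/-- most moduli have few small prime factors -/
theorem few_small (Q : ℕ) (z H : ℝ) (hH : 0 < H) (hz : 1 ≤ z) :
    (((Ioc (Q / 2) Q).filter (fun q => ¬ ((q.primeFactors.filter (fun p : ℕ => (p : ℝ) ≤ z)).card : ℝ) ≤ H)).card : ℝ) * H ≤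
      Q * (1 + Real.log z) := by
  classical
  have h1 : (((Ioc (Q / 2) Q).filter (fun q => ¬ ((q.primeFactors.filter (fun p : ℕ => (p : ℝ) ≤ z)).card : ℝ) ≤ H)).card : ℝ) * H ≤
      ∑ q ∈ Ioc (Q / 2) Q, ((q.primeFactors.filter (fun p : ℕ => (p : ℝ) ≤ z)).card : ℝ) := by
    rw [← nsmul_eq_mul]
    refine le_trans (card_nsmul_le_sum _ (fun q => ((q.primeFactors.filter (fun p : ℕ => (p : ℝ) ≤ z)).card : ℝ)) H ?_) ?_
    · intro q hq
      rw [mem_filter] at hq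
      exact (not_le.1 hq.2).le
    · apply sum_le_sum_of_subset_of_nonneg (filter_subset _ _)
      intro q _ _
      positivity
  refine h1.trans ?_
  have h2 : ∀ q ∈ Ioc (Q / 2) Q, ((q.primeFactors.filter (fun p : ℕ => (p : ℝ) ≤ z)).card : ℝ) ≤
      ∑ p ∈ Icc 1 ⌊z⌋₊, (if p ∣ q then (1 : ℝ) else 0) := by
    intro q _
    rw [← sum_filter, sum_const, nsmul_eq_mul, mul_one]
    apply Nat.cast_le.2
    apply card_le_card
    intro p hp
    rw [mem_filter, Nat.mem_primeFactors] at hp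
    rw [mem_filter, mem_Icc]
    exact ⟨⟨hp.1.1.one_lt.le, Nat.le_floor hp.2⟩, hp.1.2.1⟩
  refine (sum_le_sum h2).trans ?_
  rw [sum_comm]
  have h3 : ∀ p ∈ Icc 1 ⌊z⌋₊, ∑ q ∈ Ioc (Q / 2) Q, (if p ∣ q then (1 : ℝ) else 0) ≤ (Q : ℝ) * (1 / p) := by
    intro p hp
    rw [mem_Icc] at hp
    rw [← sum_filter, sum_const, nsmul_eq_mul, mul_one, mul_one_div]
    exact card_mult_le p Q (by omega)
  refine (sum_le_sum h3).trans ?_
  rw [← mul_sum]
  apply mul_le_mul_of_nonneg_left _ (Nat.cast_nonneg _)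
  have h4 := harmonic_le_one_add_log ⌊z⌋₊
  have h5 : ((harmonic ⌊z⌋₊ : ℚ) : ℝ) = ∑ p ∈ Icc 1 ⌊z⌋₊, 1 / (p : ℝ) := by
    rw [harmonic_eq_sum_Icc]
    push_cast
    apply sum_congr rfl
    intro p _
    rw [one_div]
  rw [← h5]
  refine h4.trans ?_
  have h6 : Real.log ⌊z⌋₊ ≤ Real.log z := by
    apply Real.log_le_log
    · exact_mod_cast Nat.floor_pos.2 hz
    · exact Nat.floor_le (by linarith)
  linarith

end Pool.Agent.H527.M
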